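import Mathlib

/-!
# Insulating cracks (MP_0ee698_an): definitions

Domains in `R^3` with Lipschitz boundary, surface measure through the Gauss-Green formula, `H^1` functions
with traces, cracks, weak solutions.
-/

open MeasureTheory Set Filter Topology Metric
open scoped ENNReal NNReal ContDiff RealInnerProductSpace

namespace Pool.Agent.H94.IC

abbrev E := EuclideanSpace ℝ (Fin 3)

/-- the basis vectors -/
noncomputable abbrev ev (k : Fin 3) : E := EuclideanSpace.single k (1 : ℝ)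

/-- divergence -/
noncomputable def dv (X : E → E) (x : E) : ℝ := ∑ k : Fin 3, (fderiv ℝ X x (ev k)) k

/-- partial derivatives -/
noncomputable def pd (k : Fin 3) (f : E → ℝ) (x : E) : ℝ := fderiv ℝ f x (ev k)

/-- gradient -/
noncomputable abbrev gr (f : E → ℝ) (x : E) : E := gradient f x

/-- Lipschitz boundary: near every boundary point, in suitable orthonormal coordinates, the set is the part below
the graph of a Lipschitz function -/
def LipBdry (Ω : Set E) : Prop := ∀ q ∈ frontier Ω, ∃ (T : E ≃ₗᵢ[ℝ] E) (r : ℝ) (L : ℝ≥0) (g : ℝ × ℝ → ℝ),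
  0 < r ∧ LipschitzWith L g ∧ ∀ x ∈ ball q r, x ∈ Ω ↔ (T x) 2 < g ((T x) 0, (T x) 1)

/-- bounded connected open sets with Lipschitz boundary -/
structure Dom (Ω : Set E) : Prop where
  op : IsOpen Ω
  conn : IsConnected Ω
  bdd : Bornology.IsBounded Ω
  lip : LipBdry Ω

/-- `σ` is the surface measure of `∂Ω` and `ν` its outer unit normal: the Gauss-Green formula -/
structure IsSurf (Ω : Set E) (σ : Measure E) (ν : E → E) : Prop where
  fin : IsFiniteMeasure σ
  supp : σ (frontier Ω)ᶜ = 0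
  meas : AEStronglyMeasurable ν σ
  unit : ∀ᵐ x ∂σ, ‖ν x‖ = 1
  gg : ∀ X : E → E, ContDiff ℝ 1 X → HasCompactSupport X →
    ∫ x in Ω, dv X x = ∫ x, ⟪X x, ν x⟫ ∂σ

/-- `u ∈ H¹(Ω \ S)` with weak gradient `F` and trace `τ` on `∂Ω` -/
structure HS1 (Ω S : Set E) (σ : Measure E) (ν : E → E) (u : E → ℝ) (F : E → E) (τ : E → ℝ) :
    Prop where
  u2 : MemLp u 2 (volume.restrict Ω)
  F2 : MemLp F 2 (volume.restrict Ω)
  t2 : MemLp τ 2 σ
  tr : ∀ X : E → E, ContDiff ℝ ∞ X → HasCompactSupport X → Disjoint (tsupport X) S →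
    ∫ x in Ω, (u x * dv X x + ⟪F x, X x⟫) = ∫ x, τ x * ⟪X x, ν x⟫ ∂σ

/-- weak solution for the crack `S` and the current profile `ψ`, with gradient `F` and trace `τ` -/
structure Sol (Ω S : Set E) (σ : Measure E) (ν : E → E) (ψ : E → ℝ) (u : E → ℝ) (F : E → E)
    (τ : E → ℝ) : Prop where
  h : HS1 Ω S σ ν u F τ
  weak : ∀ (φ : E → ℝ) (G : E → E) (κ : E → ℝ), HS1 Ω S σ ν φ G κ →
    ∫ x in Ω, ⟪F x, G x⟫ = ∫ x, ψ x * κ x ∂σ

/-- a smooth chart around `p` which maps `S` to a plane (`half` false) or to a closed half plane with `p` on its edge -/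
def FlatChart (S : Set E) (p : E) (half : Prop) : Prop :=
  ∃ Ψ : OpenPartialHomeomorph E E, p ∈ Ψ.source ∧ Ψ p = 0 ∧ ContDiffOn ℝ ∞ Ψ Ψ.source ∧
    ContDiffOn ℝ ∞ Ψ.symm Ψ.target ∧ ∀ x ∈ Ψ.source, x ∈ S ↔ ((Ψ x) 2 = 0 ∧ (half → 0 ≤ (Ψ x) 0))

/-- interior points of a surface with boundary -/
def intPts (S : Set E) : Set E := {p | p ∈ S ∧ FlatChart S p False}

/-- boundary points of a surface with boundary -/
def edgePts (S : Set E) : Set E := {p | p ∈ S ∧ FlatChart S p True}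

/-- `N` is a continuous unit normal field on `S` -/
def IsNormalField (S : Set E) (N : E → E) : Prop :=
  ContinuousOn N S ∧ ∀ p ∈ S, ‖N p‖ = 1 ∧ (fun x => ⟪N p, x - p⟫) =o[𝓝[S] p] (fun x => x - p)

/-- admissible cracks: compact connected orientable smooth surfaces in `Ω` whose boundary is a simple closed curve -/
structure IsCrack (Ω S : Set E) : Prop where
  cpt : IsCompact S
  conn : IsConnected S
  sub : S ⊆ Ω
  chart : ∀ p ∈ S, p ∈ intPts S ∨ p ∈ edgePts S
  orient : ∃ N : E → E, IsNormalField S N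
  edge : ∃ γ : Circle → E, Continuous γ ∧ Function.Injective γ ∧ range γ = edgePts S

/-- the closed unit disc of the plane -/
abbrev D2 : Set (EuclideanSpace ℝ (Fin 2)) := closedBall 0 1

/-- smoothly embedded closed discs in `Ω` -/
def IsDisc (Ω S : Set E) : Prop :=
  S ⊆ Ω ∧ ∃ (f : EuclideanSpace ℝ (Fin 2) → E) (U : Set (EuclideanSpace ℝ (Fin 2))), IsOpen U ∧ D2 ⊆ U ∧
    ContDiffOn ℝ ∞ f U ∧ InjOn f D2 ∧ (∀ y ∈ D2, Function.Injective (fderiv ℝ f y)) ∧ S = f '' D2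

/-- the measurements with the profiles `ψ` distinguish `S` and `S'` -/
def Distinguish {N : ℕ} (Ω : Set E) (σ : Measure E) (ν : E → E) (ψ : Fin N → E → ℝ) (S S' : Set E) : Prop :=
  ∀ (u u' : Fin N → E → ℝ) (F F' : Fin N → E → E) (τ τ' : Fin N → E → ℝ),
    (∀ i, Sol Ω S σ ν (ψ i) (u i) (F i) (τ i)) → (∀ i, ∫ x, τ i x ∂σ = 0) →
    (∀ i, Sol Ω S' σ ν (ψ i) (u' i) (F' i) (τ' i)) → (∀ i, ∫ x, τ' i x ∂σ = 0) →
    (∀ i, τ i =ᵐ[σ] τ' i) → S = S'

/-- admissible current profiles -/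
structure IsProfile (σ : Measure E) (ψ : E → ℝ) : Prop where
  l2 : MemLp ψ 2 σ
  mean : ∫ x, ψ x ∂σ = 0

/-- THE THEOREM: finitely many profiles determine every disc-type crack among all admissible cracks -/
def MainStatement : Prop := ∀ (Ω : Set E) (σ : Measure E) (ν : E → E), Dom Ω → IsSurf Ω σ ν →
  ∃ (N : ℕ) (ψ : Fin N → E → ℝ), (∀ i, IsProfile σ (ψ i)) ∧
    ∀ S S' : Set E, IsCrack Ω S → IsDisc Ω S' → Distinguish Ω σ ν ψ S S'

end Pool.Agent.H94.IC
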