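import Mathlib
import Pool.Agent.H94.IC.Defs

/-!
# Insulating cracks, targets 1: sign functions, parity, holomorphic extensions
-/

open MeasureTheory Set Filter Topology Metric
open scoped ENNReal NNReal ContDiff RealInnerProductSpace

namespace Pool.Agent.H94.IC

/-! ## G: gluing of sign functions -/

/-- sign presheaves on the open subsets of `O`; sections are considered off `Y` -/
structure SignSheaf {X : Type} [TopologicalSpace X] (O Y : Set X) (P : Set X → (X → ℤˣ) → Prop) :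
    Prop where
  dense : ∀ W : Set X, IsOpen W → W ⊆ O → W.Nonempty → (W \ Y).Nonempty
  glue : ∀ (W : Set X) (s : X → ℤˣ), IsOpen W → W ⊆ O →
    (∀ x ∈ W, ∃ W' : Set X, IsOpen W' ∧ x ∈ W' ∧ W' ⊆ O ∧ P W' s) → P W s
  congr : ∀ (W : Set X) (s s' : X → ℤˣ), IsOpen W → W ⊆ O → P W s →
    (∀ x ∈ W \ Y, s x = s' x) → P W s'
  neg : ∀ (W : Set X) (s : X → ℤˣ), IsOpen W → W ⊆ O → P W s → P W (fun x => - s x)
  uniq : ∀ (W : Set X) (s s' : X → ℤˣ), IsOpen W → W ⊆ O → P W s → P W s' → ∀ x ∈ W,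
    ∃ W' : Set X, IsOpen W' ∧ x ∈ W' ∧ W' ⊆ W ∧
      ((∀ y ∈ W' \ Y, s y = s' y) ∨ (∀ y ∈ W' \ Y, s y = - s' y))
  ex : ∀ x ∈ O, ∃ (W : Set X) (s : X → ℤˣ), IsOpen W ∧ x ∈ W ∧ W ⊆ O ∧ P W s

/-- two sections on a preconnected open set agree up to sign -/
def T_UNI : Prop := ∀ (X : Type) [TopologicalSpace X] (O Y : Set X) (P : Set X → (X → ℤˣ) → Prop)
  (W : Set X) (s s' : X → ℤˣ), SignSheaf O Y P → IsOpen W → IsPreconnected W → W ⊆ O →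
    P W s → P W s' → (∀ y ∈ W \ Y, s y = s' y) ∨ (∀ y ∈ W \ Y, s y = - s' y)

/-- global section over a star-shaped open set -/
def T_GLS : Prop := ∀ (V : Type) [NormedAddCommGroup V] [NormedSpace ℝ V] (O Y : Set V)
  (P : Set V → (V → ℤˣ) → Prop) (c : V), IsOpen O → c ∈ O → StarConvex ℝ c O → SignSheaf O Y P →
    ∃ s : V → ℤˣ, P O s

/-- the flat closed disc in space -/
def flatDisc : Set E := {y | y 2 = 0 ∧ y 0 ^ 2 + y 1 ^ 2 ≤ 1}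

/-- global section over the complement of an embedded disc -/
def T_GDC : Prop := ∀ (Φ : OpenPartialHomeomorph E E) (δ : ℝ) (Y : Set E)
  (P : Set E → (E → ℤˣ) → Prop), 0 < δ → cthickening δ flatDisc ⊆ Φ.source →
    SignSheaf (Φ '' flatDisc)ᶜ Y P → ∃ s : E → ℤˣ, P (Φ '' flatDisc)ᶜ s

/-! ## L: graph points and good sign functions -/

/-- the box with centre `p` in the coordinates `T` -/
def Bx (T : E ≃ₗᵢ[ℝ] E) (p : E) (r h : ℝ) : Set E :=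
  {x | |(T (x - p)) 0| < r ∧ |(T (x - p)) 1| < r ∧ |(T (x - p)) 2| < h}

/-- `Y` is a continuous graph in the box -/
structure GrBox (Y : Set E) (p : E) (T : E ≃ₗᵢ[ℝ] E) (r h : ℝ) (g : ℝ × ℝ → ℝ) : Prop where
  rpos : 0 < r
  hpos : 0 < h
  cont : ContinuousOn g {a | |a.1| < r ∧ |a.2| < r}
  zero : g (0, 0) = 0
  bd : ∀ a : ℝ × ℝ, |a.1| < r → |a.2| < r → |g a| < h
  eq : ∀ x ∈ Bx T p r h, x ∈ Y ↔ (T (x - p)) 2 = g ((T (x - p)) 0, (T (x - p)) 1)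

/-- `Y` is a continuous graph near `p` -/
def GrPt (Y : Set E) (p : E) : Prop := ∃ T r h g, GrBox Y p T r h g

/-- `s` takes opposite values on the two sides of `Y` near `p` -/
def Flip (Y : Set E) (s : E → ℤˣ) (p : E) : Prop := ∃ T r h g, GrBox Y p T r h g ∧
  ∃ c : ℤˣ, ∀ x ∈ Bx T p r h,
    (g ((T (x - p)) 0, (T (x - p)) 1) < (T (x - p)) 2 → s x = c) ∧
    ((T (x - p)) 2 < g ((T (x - p)) 0, (T (x - p)) 1) → s x = - c)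

/-- `s` takes the same value on the two sides of `Y` near `p` -/
def NoFlip (Y : Set E) (s : E → ℤˣ) (p : E) : Prop := ∃ T r h g, GrBox Y p T r h g ∧
  ∃ c : ℤˣ, ∀ x ∈ Bx T p r h, x ∉ Y → s x = c

/-- `s` is locally constant on `W` off `Y` -/
def LC (Y W : Set E) (s : E → ℤˣ) : Prop := ∀ x ∈ W \ Y, ∀ᶠ y in 𝓝 x, s y = s x

/-- good sign functions: locally constant off `Y` and changing sign at all graph points of `Y` -/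
structure Good (Y W : Set E) (s : E → ℤˣ) : Prop where
  lc : LC Y W s
  flip : ∀ p ∈ W, GrPt Y p → Flip Y s p

/-- at graph points exactly one of the two cases holds -/
def T_DCH : Prop := ∀ (Y W : Set E) (s : E → ℤˣ) (p : E), IsOpen W → p ∈ W → LC Y W s → GrPt Y p →
  (Flip Y s p ∨ NoFlip Y s p) ∧ ¬ (Flip Y s p ∧ NoFlip Y s p)

/-- the point with coordinates `(a,t)` -/
noncomputable def pt (T : E ≃ₗᵢ[ℝ] E) (p : E) (a : ℝ × ℝ) (t : ℝ) : E := p + T.symm !₂[a.1, a.2, t]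

/-- the open square -/
def Sq (r : ℝ) : Set (ℝ × ℝ) := {a | |a.1| < r ∧ |a.2| < r}

/-- parity boxes: over the open dense set `A` the set `Y` consists of graphs, and the number of points of `Y` below
a point off `Y` has a locally constant parity -/
structure PB (Y : Set E) (p : E) (T : E ≃ₗᵢ[ℝ] E) (r h : ℝ) (A : Set (ℝ × ℝ)) : Prop where
  rpos : 0 < r
  hpos : 0 < h
  Aop : IsOpen A
  Asub : A ⊆ Sq r
  Adense : Sq r ⊆ closure A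
  closed : ∀ a ∈ Sq r, ∀ t ∈ Ioo (-h) h, pt T p a t ∉ Y →
    ∀ᶠ b in 𝓝 (a, t), pt T p b.1 b.2 ∉ Y
  fin : ∀ a ∈ Sq r, {t | t ∈ Ioo (-h) h ∧ pt T p a t ∈ Y}.Finite
  loc : ∀ a ∈ A, ∀ t ∈ Ioo (-h) h, pt T p a t ∈ Y → ∃ ε > 0, ∃ η > 0, ∃ g : ℝ × ℝ → ℝ,
    ContinuousOn g (ball a η) ∧ g a = t ∧ ∀ b ∈ ball a η, |g b - t| < ε ∧
      ∀ t', |t' - t| < ε → (pt T p b t' ∈ Y ↔ t' = g b)
  par : ∀ a ∈ Sq r, ∀ t ∈ Ioo (-h) h, pt T p a t ∉ Y → ∃ ε > 0, ∃ c : ℕ, ∀ b ∈ A ∩ ball a ε,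
    {t' | t' ∈ Ioo (-h) t ∧ pt T p b t' ∈ Y}.ncard % 2 = c % 2

/-- parity boxes carry good sign functions -/
def T_SGN : Prop := ∀ (Y : Set E) (p : E) (T : E ≃ₗᵢ[ℝ] E) (r h : ℝ) (A : Set (ℝ × ℝ)),
  PB Y p T r h A → ∃ s : E → ℤˣ, Good Y (Bx T p r h) s

/-- in a parity box a sign function without sign changes is constant -/
def T_RMV : Prop := ∀ (Y : Set E) (p : E) (T : E ≃ₗᵢ[ℝ] E) (r h : ℝ) (A : Set (ℝ × ℝ)) (s : E → ℤˣ),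
  PB Y p T r h A → LC Y (Bx T p r h) s → (∀ q ∈ Bx T p r h, GrPt Y q → ¬ Flip Y s q) →
    ∃ c : ℤˣ, ∀ x ∈ Bx T p r h, x ∉ Y → s x = c

/-! ## A: holomorphic functions -/

abbrev C3 := Fin 3 → ℂ

/-- real points in complex space -/
def cx (x : E) : C3 := fun k => (x k : ℂ)

/-- continuous functions which are holomorphic on complex lines -/
def GH (U : Set C3) (F : C3 → ℂ) : Prop :=
  ContinuousOn F U ∧ ∀ z ∈ U, ∀ v : C3, DifferentiableAt ℂ (fun t : ℂ => F (z + t • v)) 0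

/-- directional derivative -/
noncomputable def DD (v : C3) (F : C3 → ℂ) (z : C3) : ℂ := deriv (fun t : ℂ => F (z + t • v)) 0

/-- closure properties of `GH` -/
def T_GHC : Prop := ∀ U : Set C3, IsOpen U →
  (∀ c : ℂ, GH U fun _ => c) ∧
  (∀ F G, GH U F → GH U G → GH U (fun z => F z + G z) ∧ GH U (fun z => F z * G z)) ∧
  (∀ F v, GH U F → GH U (DD v F)) ∧
  (∀ F v z M s, GH U F → 0 < s → ball z s ⊆ U → (∀ w ∈ ball z s, ‖F w‖ ≤ M) → ‖v‖ ≤ 1 →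
    ‖DD v F z‖ ≤ M / s) ∧
  (∀ F v z, GH U F → z ∈ U → HasDerivAt (fun t : ℂ => F (z + t • v)) (∑ k, v k * DD (Pi.single k 1) F z) 0) ∧
  (∀ (F : ℕ → C3 → ℂ) G, (∀ n, GH U (F n)) → TendstoLocallyUniformlyOn F G atTop U → GH U G)

/-- `f` has a holomorphic extension to the complex ball of radius `ρ` around `p` -/
def HX (p : E) (ρ : ℝ) (f : E → ℝ) : Prop :=
  ∃ F : C3 → ℂ, GH (ball (cx p) ρ) F ∧ ∀ x : E, cx x ∈ ball (cx p) ρ → F (cx x) = (f x : ℂ)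

/-- `f` is smooth and harmonic on `O` -/
def Harm (O : Set E) (f : E → ℝ) : Prop := ContDiffOn ℝ ∞ f O ∧ ∀ x ∈ O, ∑ k : Fin 3, pd k (pd k f) x = 0

/-- algebra of extendable functions -/
def T_HXA : Prop := ∀ (p : E) (ρ : ℝ),
  (∀ c : ℝ, HX p ρ fun _ => c) ∧
  (∀ f g, HX p ρ f → HX p ρ g → HX p ρ (fun x => f x + g x) ∧ HX p ρ (fun x => f x * g x)) ∧
  (∀ f g, HX p ρ f → (∀ x, cx x ∈ ball (cx p) ρ → g x = f x) → HX p ρ g)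

/-- derivatives of extendable functions -/
def T_HXP : Prop := ∀ (p : E) (ρ : ℝ) (O : Set E) (f : E → ℝ) (k : Fin 3), IsOpen O →
  ContDiffOn ℝ ∞ f O → (∀ x, cx x ∈ ball (cx p) ρ → x ∈ O) → HX p ρ f → HX p ρ (pd k f)

/-- harmonic functions are extendable -/
def T_HRX : Prop := ∀ (O : Set E) (f : E → ℝ) (p : E) (r : ℝ), Harm O f → 0 < r → ball p r ⊆ O →
  HX p (r / 16) f

/-- identity theorem -/
def T_IDT : Prop := ∀ (O W : Set E) (f : E → ℝ), IsOpen O → IsPreconnected O → ContinuousOn f O →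
  (∀ p ∈ O, ∃ ρ > 0, HX p ρ f) → IsOpen W → W.Nonempty → W ⊆ O → (∀ x ∈ W, f x = 0) →
    ∀ x ∈ O, f x = 0

/-- zero sets are null sets -/
def T_NUL : Prop := ∀ (O : Set E) (f : E → ℝ), IsOpen O → IsPreconnected O → ContinuousOn f O →
  (∀ p ∈ O, ∃ ρ > 0, HX p ρ f) → (∃ x ∈ O, f x ≠ 0) → volume {x | x ∈ O ∧ f x = 0} = 0

/-- polar coordinates: a measurable set which meets the rays from `c` in countable sets is null -/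
def T_POL : Prop := ∀ (N : Set E) (c : E), MeasurableSet N →
  (∀ v : E, ‖v‖ = 1 → {t : ℝ | 0 < t ∧ c + t • v ∈ N}.Countable) → volume N = 0

/-- the derivation defined by `u` -/
noncomputable def Lu (u f : E → ℝ) (x : E) : ℝ := ∑ k : Fin 3, pd k u x * pd k f x

/-- Nagumo bound; the geometric constant does not depend on `f` -/
def T_NAG : Prop := ∀ (O : Set E) (u : E → ℝ) (p : E) (ρ : ℝ), IsOpen O → ContDiffOn ℝ ∞ u O →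
  0 < ρ → (∀ x, cx x ∈ ball (cx p) ρ → x ∈ O) → HX p ρ u →
    ∃ C r' : ℝ, 0 < C ∧ 0 < r' ∧ ∀ f : E → ℝ, ContDiffOn ℝ ∞ f O → HX p ρ f → ∃ M : ℝ, 0 ≤ M ∧
      ∀ (k : ℕ) (x : E), x ∈ ball p r' → |(Lu u)^[k] f x| ≤ M * C ^ k * k.factorial

/-- sets which near `p` are the zero set of a nontrivial real analytic function -/
def AN (Y : Set E) (p : E) : Prop := ∃ (ρ : ℝ) (F : C3 → ℂ), 0 < ρ ∧ GH (ball (cx p) ρ) F ∧
  (∀ x : E, cx x ∈ ball (cx p) ρ → (F (cx x)).im = 0 ∧ (x ∈ Y ↔ F (cx x) = 0)) ∧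
  ∃ x : E, cx x ∈ ball (cx p) ρ ∧ x ∉ Y

/-- common zero sets of countable families -/
def T_ANW : Prop := ∀ (f : ℕ → E → ℝ) (p : E) (ρ : ℝ) (Y : Set E), 0 < ρ → (∀ n, HX p ρ (f n)) →
  (∀ x, cx x ∈ ball (cx p) ρ → (x ∈ Y ↔ ∀ n, f n x = 0)) → (∃ x : E, cx x ∈ ball (cx p) ρ ∧ x ∉ Y) →
    AN Y p

/-! ## P: parity boxes of analytic sets -/

/-- adapted coordinates -/
def T_COO : Prop := ∀ (Y : Set E) (p : E), AN Y p → ∃ (T : E ≃ₗᵢ[ℝ] E) (ρ : ℝ) (F : C3 → ℂ), 0 < ρ ∧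
  GH (ball 0 ρ) F ∧
  (∀ (a : ℝ × ℝ) (t : ℝ), |a.1| < ρ → |a.2| < ρ → |t| < ρ →
    (F ![(a.1 : ℂ), (a.2 : ℂ), (t : ℂ)]).im = 0 ∧ (pt T p a t ∈ Y ↔ F ![(a.1 : ℂ), (a.2 : ℂ), (t : ℂ)] = 0)) ∧
  ∃ ζ : ℂ, ‖ζ‖ < ρ ∧ F ![0, 0, ζ] ≠ 0

/-- power sums of the zeros in a disc -/
def T_PSM : Prop := ∀ (c : ℂ) (R : ℝ) (g : ℂ → ℂ), 0 < R → AnalyticOnNhd ℂ g (closedBall c R) →
  (∀ z ∈ sphere c R, g z ≠ 0) → ∃ m : Multiset ℂ, (∀ z, z ∈ m ↔ (z ∈ ball c R ∧ g z = 0)) ∧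
    ∀ k : ℕ, (2 * Real.pi * Complex.I : ℂ)⁻¹ * (∮ z in C(c, R), z ^ k * (deriv g z / g z)) = (m.map (· ^ k)).sum

/-- Hankel determinants of power sums -/
def T_HNK : Prop := ∀ (m : Multiset ℂ) (d : ℕ),
  (m.toFinset.card < d →
    (Matrix.of fun i j : Fin d => (m.map (· ^ ((i : ℕ) + (j : ℕ)))).sum).det = 0) ∧
  (m.toFinset.card = d →
    (Matrix.of fun i j : Fin d => (m.map (· ^ ((i : ℕ) + (j : ℕ)))).sum).det ≠ 0)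

/-- power sums as functions of the parameter -/
noncomputable def psum (F : C3 → ℂ) (c R : ℝ) (k : ℕ) (a : ℂ × ℂ) : ℂ :=
  (2 * Real.pi * Complex.I : ℂ)⁻¹ * ∮ z in C((c : ℂ), R),
    z ^ k * (deriv (fun w : ℂ => F ![a.1, a.2, w]) z / F ![a.1, a.2, z])

/-- power sums depend analytically on the parameters -/
def T_PSA : Prop := ∀ (F : C3 → ℂ) (ρ c R : ℝ) (a0 : ℝ × ℝ) (r : ℝ) (k : ℕ), GH (ball 0 ρ) F → 0 < R → 0 < r →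
  |c| + R < ρ → |a0.1| + r ≤ ρ → |a0.2| + r ≤ ρ →
  (∀ a : ℂ × ℂ, ‖a.1 - a0.1‖ < r → ‖a.2 - a0.2‖ < r → ∀ z ∈ sphere (c : ℂ) R, F ![a.1, a.2, z] ≠ 0) →
  ∀ a : ℂ × ℂ, ‖a.1 - a0.1‖ < r → ‖a.2 - a0.2‖ < r →
    ContinuousAt (psum F c R k) a ∧
    ∀ b : ℂ × ℂ, DifferentiableAt ℂ (fun t : ℂ => psum F c R k (a + t • b)) 0

/-- the number of distinct zeros in the disc -/
noncomputable def nz (F : C3 → ℂ) (c R : ℝ) (a : ℝ × ℝ) : ℕ :=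
  {z : ℂ | z ∈ ball (c : ℂ) R ∧ F ![(a.1 : ℂ), (a.2 : ℂ), z] = 0}.ncard

/-- the number of distinct zeros is generically maximal -/
def T_DIS : Prop := ∀ (F : C3 → ℂ) (ρ c R : ℝ) (a0 : ℝ × ℝ) (r : ℝ), GH (ball 0 ρ) F → 0 < R → 0 < r →
  |c| + R < ρ → |a0.1| + r ≤ ρ → |a0.2| + r ≤ ρ →
  (∀ a : ℂ × ℂ, ‖a.1 - a0.1‖ < r → ‖a.2 - a0.2‖ < r → ∀ z ∈ sphere (c : ℂ) R, F ![a.1, a.2, z] ≠ 0) →
  ∃ (d : ℕ) (A : Set (ℝ × ℝ)), IsOpen A ∧ A ⊆ ball a0 r ∧ ball a0 r ⊆ closure A ∧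
    (∀ a ∈ ball a0 r, {z : ℂ | z ∈ ball (c : ℂ) R ∧ F ![(a.1 : ℂ), (a.2 : ℂ), z] = 0}.Finite ∧ nz F c R a ≤ d) ∧
    ∀ a ∈ A, nz F c R a = d

/-- zeros persist (minimum modulus principle) -/
def T_PRS : Prop := ∀ (X : Type) [TopologicalSpace X] (g : X → ℂ → ℂ) (x0 : X) (z0 : ℂ) (ε : ℝ), 0 < ε →
  ContinuousOn (fun q : X × ℂ => g q.1 q.2) (univ ×ˢ closedBall z0 ε) →
  (∀ x, DifferentiableOn ℂ (g x) (ball z0 ε)) → g x0 z0 = 0 → (∀ z ∈ sphere z0 ε, g x0 z ≠ 0) →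
  ∀ᶠ x in 𝓝 x0, ∃ z ∈ ball z0 ε, g x z = 0

/-- real zeros: parity and graphs where the number of zeros is locally constant -/
def T_RLZ : Prop := ∀ (F : C3 → ℂ) (ρ c R : ℝ) (a1 : ℝ × ℝ) (r : ℝ), GH (ball 0 ρ) F → 0 < R → 0 < r →
  |c| + R < ρ → |a1.1| + r ≤ ρ → |a1.2| + r ≤ ρ →
  (∀ (a : ℝ × ℝ) (t : ℝ), |a.1| < ρ → |a.2| < ρ → |t| < ρ → (F ![(a.1 : ℂ), (a.2 : ℂ), (t : ℂ)]).im = 0) →
  (∀ a ∈ ball a1 r, ∀ z ∈ sphere (c : ℂ) R, F ![(a.1 : ℂ), (a.2 : ℂ), z] ≠ 0) →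
  (∀ a ∈ ball a1 r, {z : ℂ | z ∈ ball (c : ℂ) R ∧ F ![(a.1 : ℂ), (a.2 : ℂ), z] = 0}.Finite ∧
    nz F c R a = nz F c R a1) →
  {t : ℝ | t ∈ Ioo (c - R) (c + R) ∧ F ![(a1.1 : ℂ), (a1.2 : ℂ), (t : ℂ)] = 0}.ncard % 2 = nz F c R a1 % 2 ∧
  ∀ t ∈ Ioo (c - R) (c + R), F ![(a1.1 : ℂ), (a1.2 : ℂ), (t : ℂ)] = 0 → ∃ ε > 0, ∃ η > 0, ∃ g : ℝ × ℝ → ℝ,
    ContinuousOn g (ball a1 η) ∧ g a1 = t ∧ ∀ b ∈ ball a1 η, |g b - t| < ε ∧
      ∀ t' : ℝ, |t' - t| < ε → (F ![(b.1 : ℂ), (b.2 : ℂ), (t' : ℂ)] = 0 ↔ t' = g b)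

/-- parity boxes exist -/
def T_PBX : Prop := ∀ (Y : Set E) (p : E), AN Y p → ∀ ε > 0, ∃ (T : E ≃ₗᵢ[ℝ] E) (r h : ℝ) (A : Set (ℝ × ℝ)),
  r < ε ∧ h < ε ∧ PB Y p T r h A

/-- local existence of good sign functions and global removability -/
def T_RMG : Prop := ∀ (Y W : Set E), IsOpen W → (∀ p ∈ W, AN Y p) →
  (∀ p ∈ W, ∀ N ∈ 𝓝 p, ∃ (W' : Set E) (s : E → ℤˣ), IsOpen W' ∧ p ∈ W' ∧ W' ⊆ N ∧ Good Y W' s) ∧
  (∀ W' : Set E, IsOpen W' → W' ⊆ W → W'.Nonempty → (W' \ Y).Nonempty) ∧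
  ∀ s : E → ℤˣ, LC Y W s → (∀ q ∈ W, GrPt Y q → ¬ Flip Y s q) →
    (∀ p ∈ W, ∃ W' : Set E, IsOpen W' ∧ p ∈ W' ∧ W' ⊆ W ∧ ∃ c : ℤˣ, ∀ x ∈ W' \ Y, s x = c) ∧
    (IsPreconnected W → ∃ c : ℤˣ, ∀ x ∈ W \ Y, s x = c)

/-- global good sign functions off an embedded disc -/
def T_SIG : Prop := ∀ (Φ : OpenPartialHomeomorph E E) (δ : ℝ) (Y : Set E), 0 < δ →
  cthickening δ flatDisc ⊆ Φ.source → (∀ p ∉ Φ '' flatDisc, AN Y p) →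
    ∃ s : E → ℤˣ, Good Y (Φ '' flatDisc)ᶜ s

end Pool.Agent.H94.IC
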