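import Mathlib
import Pool.Agent.H94.IC.Targets1

/-!
# Insulating cracks, targets 2: invisible sets, flux, weak solutions
-/

open MeasureTheory Set Filter Topology Metric
open scoped ENNReal NNReal ContDiff RealInnerProductSpace

namespace Pool.Agent.H94.IC

/-! ## V: the invisible set -/

/-- the determinant of three gradients -/
noncomputable def jac3 (u v w : E → ℝ) (x : E) : ℝ :=
  Matrix.det (Matrix.of ![fun k => pd k u x, fun k => pd k v x, fun k => pd k w x])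

/-- the words -/
noncomputable def wd {N : ℕ} (u : Fin N → E → ℝ) (b : Fin N × Fin N × Fin N) : List (Fin N) → E → ℝ
  | [] => jac3 (u b.1) (u b.2.1) (u b.2.2)
  | i :: l => Lu (u i) (wd u b l)

/-- the invisible set -/
def Inv {N : ℕ} (O : Set E) (u : Fin N → E → ℝ) : Set E :=
  {x | x ∈ O ∧ ∀ (b : Fin N × Fin N × Fin N) (l : List (Fin N)), wd u b l x = 0}

/-- nontriviality -/
def NonTriv {N : ℕ} (O : Set E) (u : Fin N → E → ℝ) : Prop := ∃ b, ∃ x ∈ O, wd u b [] x ≠ 0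

/-- the invisible set is relatively closed, analytic and null -/
def T_INC : Prop := ∀ (N : ℕ) (O : Set E) (u : Fin N → E → ℝ), IsOpen O → (∀ i, Harm O (u i)) →
  (∀ b l, ContDiffOn ℝ ∞ (wd u b l) O) ∧
  (∀ x ∈ O, x ∉ Inv O u → ∀ᶠ y in 𝓝 x, y ∉ Inv O u) ∧
  (IsPreconnected O → NonTriv O u → (∀ p ∈ O, AN (Inv O u) p) ∧ volume (Inv O u) = 0)

/-- flow invariance of the invisible set -/
def T_INV : Prop := ∀ (N : ℕ) (O : Set E) (u : Fin N → E → ℝ) (i : Fin N) (p : E), IsOpen O → p ∈ O →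
  (∀ j, Harm O (u j)) → ∃ r t0 : ℝ, 0 < r ∧ 0 < t0 ∧ ball p r ⊆ O ∧ ∀ γ : ℝ → E,
    (∀ t ∈ Ioo (-t0) t0, HasDerivAt γ (gr (u i) (γ t)) t) → γ 0 ∈ ball p r → γ 0 ∈ Inv O u →
      ∀ t ∈ Ioo (-t0) t0, γ t ∈ Inv O u

/-- the distance to the invisible set grows at most exponentially along the flow -/
def T_DST : Prop := ∀ (N : ℕ) (O : Set E) (u : Fin N → E → ℝ) (i : Fin N) (p : E), IsOpen O → p ∈ O →
  (∀ j, Harm O (u j)) → ∃ r L : ℝ, 0 < r ∧ 0 ≤ L ∧ closedBall p (4 * r) ⊆ O ∧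
    ∀ x ∈ ball p r, (Inv O u ∩ closedBall p (3 * r)).Nonempty →
      infDist x (Inv O u ∩ closedBall p (3 * r)) < r →
      DifferentiableAt ℝ (fun y => infDist y (Inv O u ∩ closedBall p (3 * r))) x →
      |fderiv ℝ (fun y => infDist y (Inv O u ∩ closedBall p (3 * r))) x (gr (u i) x)|
        ≤ L * infDist x (Inv O u ∩ closedBall p (3 * r))

/-- `1_D F` is divergence free near every point of `O` -/
def FF (D : Set E) (F : E → E) (O : Set E) : Prop := ∀ x ∈ O, ∃ r > 0, ball x r ⊆ O ∧ ∀ φ : E → ℝ,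
  (∃ K : ℝ≥0, LipschitzWith K φ) → HasCompactSupport φ → tsupport φ ⊆ ball x r →
    ∫ y in D, ⟪F y, gr φ y⟫ = 0

/-- flux lemma: no flux across the invisible set -/
def T_FLX : Prop := ∀ (N : ℕ) (O : Set E) (u : Fin N → E → ℝ) (i : Fin N) (D : Set E), IsOpen O →
  IsPreconnected O → (∀ j, Harm O (u j)) → NonTriv O u → IsOpen D →
  (∀ x ∈ O, x ∉ Inv O u → x ∉ D → ∀ᶠ y in 𝓝 x, y ∉ D) → FF D (gr (u i)) O

/-- a surface to which all gradients are tangent is invisible -/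
def T_SIY : Prop := ∀ (N : ℕ) (O : Set E) (u : Fin N → E → ℝ) (Ψ : OpenPartialHomeomorph E E), IsOpen O →
  (∀ j, Harm O (u j)) → Ψ.source ⊆ O → ContDiffOn ℝ ∞ Ψ Ψ.source → ContDiffOn ℝ ∞ Ψ.symm Ψ.target →
  (∀ j, ∀ q ∈ Ψ.source, (Ψ q) 2 = 0 → ⟪gr (u j) q, gr (fun x => (Ψ x) 2) q⟫ = 0) →
  ∀ q ∈ Ψ.source, (Ψ q) 2 = 0 → q ∈ Inv O u

/-- an analytic set which contains a surface has graph points near it -/
def T_GPE : Prop := ∀ (Y : Set E) (Ψ : OpenPartialHomeomorph E E) (p : E), p ∈ Ψ.source → (Ψ p) 2 = 0 →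
  (∀ x ∈ Ψ.source, (Ψ x) 2 = 0 → x ∈ Y) → (∀ x ∈ Ψ.source, AN Y x) → ∀ N ∈ 𝓝 p, ∃ q ∈ N, GrPt Y q

/-- points of the invisible set are points of rank at most two -/
def T_RK2 : Prop := ∀ (N : ℕ) (O : Set E) (u : Fin N → E → ℝ) (x : E), x ∈ Inv O u →
  ∃ v : E, ‖v‖ = 1 ∧ ∀ i, ⟪gr (u i) x, v⟫ = 0

/-- the invisible set depends only on the functions near the point -/
def T_LOC : Prop := ∀ (N : ℕ) (O O' : Set E) (u u' : Fin N → E → ℝ) (x : E), IsOpen O → IsOpen O' → x ∈ O →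
  x ∈ O' → (∀ i, ∀ y ∈ O ∩ O', u i y = u' i y) → (x ∈ Inv O u ↔ x ∈ Inv O' u')

/-! ## W: weak solutions -/

/-- Newton's formula -/
def T_NWT : Prop := ∀ φ : E → ℝ, ContDiff ℝ ∞ φ → HasCompactSupport φ → ∀ x : E,
  Integrable (fun y => (∑ k : Fin 3, pd k (pd k φ) y) / ‖x - y‖) ∧
  φ x = -(4 * Real.pi)⁻¹ * ∫ y, (∑ k : Fin 3, pd k (pd k φ) y) / ‖x - y‖

/-- Weyl's lemma -/
def T_WYL : Prop := ∀ (O : Set E) (w : E → ℝ), IsOpen O → MemLp w 2 (volume.restrict O) →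
  (∀ φ : E → ℝ, ContDiff ℝ ∞ φ → HasCompactSupport φ → tsupport φ ⊆ O →
    ∫ x in O, w x * ∑ k : Fin 3, pd k (pd k φ) x = 0) →
  ∃ h : E → ℝ, Harm O h ∧ w =ᵐ[volume.restrict O] h

/-- calculus in `HS1` -/
def T_HSM : Prop := ∀ (Ω S : Set E) (σ : Measure E) (ν : E → E), IsOpen Ω → Bornology.IsBounded Ω →
  IsSurf Ω σ ν → IsCompact S → S ⊆ Ω →
  (∀ u F τ u' F' τ', HS1 Ω S σ ν u F τ → HS1 Ω S σ ν u' F' τ' →
    HS1 Ω S σ ν (fun x => u x + u' x) (fun x => F x + F' x) (fun x => τ x + τ' x)) ∧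
  (∀ u F τ (c : ℝ), HS1 Ω S σ ν u F τ → HS1 Ω S σ ν (fun x => c * u x) (fun x => c • F x) (fun x => c * τ x)) ∧
  (∀ u F τ (χ : E → ℝ), HS1 Ω S σ ν u F τ → ContDiff ℝ ∞ χ →
    HS1 Ω S σ ν (fun x => χ x * u x) (fun x => χ x • F x + u x • gr χ x) (fun x => χ x * τ x)) ∧
  (∀ φ : E → ℝ, ContDiff ℝ ∞ φ → HS1 Ω S σ ν φ (gr φ) φ) ∧
  (∀ (φ : E → ℝ) (K : Set E), ContDiffOn ℝ ∞ φ (Ω \ S) → MemLp φ 2 (volume.restrict Ω) →
    MemLp (gr φ) 2 (volume.restrict Ω) → IsCompact K → K ⊆ Ω → (∀ x ∈ Ω \ K, φ x = 0) →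
    HS1 Ω S σ ν φ (gr φ) (fun _ => 0))

/-- harmonic representatives of weak solutions -/
def T_HRP : Prop := ∀ (Ω S : Set E) (σ : Measure E) (ν : E → E) (ψ u : E → ℝ) (F : E → E) (τ : E → ℝ),
  IsOpen Ω → Bornology.IsBounded Ω → IsSurf Ω σ ν → IsCompact S → S ⊆ Ω → volume S = 0 →
  Sol Ω S σ ν ψ u F τ → ∃ h : E → ℝ, Harm (Ω \ S) h ∧ u =ᵐ[volume.restrict Ω] h ∧
    F =ᵐ[volume.restrict Ω] gr h ∧ Sol Ω S σ ν ψ h (gr h) τ

/-- weak Neumann problem near the crack -/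
structure WN (Ω S : Set E) (h : E → ℝ) : Prop where
  harm : Harm (Ω \ S) h
  l2 : MemLp h 2 (volume.restrict Ω)
  g2 : MemLp (gr h) 2 (volume.restrict Ω)
  weak : ∀ (φ : E → ℝ) (K : Set E), ContDiffOn ℝ ∞ φ (Ω \ S) → MemLp φ 2 (volume.restrict Ω) →
    MemLp (gr φ) 2 (volume.restrict Ω) → IsCompact K → K ⊆ Ω → (∀ x ∈ Ω \ K, φ x = 0) →
    ∫ x in Ω, ⟪gr h x, gr φ x⟫ = 0

/-- unique continuation from the boundary: the component of `x` off the two cracks reaches the outside -/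
def T_UCX : Prop := ∀ (Ω S S' : Set E) (σ : Measure E) (ν : E → E) (ψ h h' τ τ' : E → ℝ),
  IsOpen Ω → Bornology.IsBounded Ω → IsSurf Ω σ ν → IsCompact S → S ⊆ Ω → volume S = 0 →
  IsCompact S' → S' ⊆ Ω → volume S' = 0 → Harm (Ω \ S) h → Harm (Ω \ S') h' →
  Sol Ω S σ ν ψ h (gr h) τ → Sol Ω S' σ ν ψ h' (gr h') τ' → τ =ᵐ[σ] τ' →
  ∀ x ∈ Ω, x ∉ S → x ∉ S' → (connectedComponentIn (S ∪ S')ᶜ x ∩ (closure Ω)ᶜ).Nonempty → h x = h' x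

/-- the part of the domain enclosed by the two cracks -/
def Enc (Ω S S' : Set E) : Set E :=
  {x | x ∉ S ∧ x ∉ S' ∧ ¬ (connectedComponentIn (S ∪ S')ᶜ x ∩ (closure Ω)ᶜ).Nonempty}

/-- topology of the enclosed part -/
def T_ENC : Prop := ∀ Ω S S' : Set E, Dom Ω → IsCompact S → S ⊆ Ω → IsCompact S' → S' ⊆ Ω →
  IsOpen (Enc Ω S S') ∧ closure (Enc Ω S S') ⊆ Ω ∧ closure (Enc Ω S S') ⊆ Enc Ω S S' ∪ S ∪ S'

/-- the enclosed part is flux free -/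
def T_FFE : Prop := ∀ (Ω S S' : Set E) (h h' : E → ℝ), Dom Ω → IsCrack Ω S → IsCompact S' → S' ⊆ Ω →
  WN Ω S h → Harm (Ω \ S') h' → (∀ x ∈ Ω, x ∉ S → x ∉ S' → x ∉ Enc Ω S S' → h x = h' x) →
  FF (Enc Ω S S') (gr h') (Ω \ S')

/-- one-sided tests: the gradient of `h'` is tangent to `S` at points where `h'` is smooth across `S` -/
def T_TAN : Prop := ∀ (Ω S O' : Set E) (h h' : E → ℝ) (Ψ : OpenPartialHomeomorph E E), IsOpen Ω →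
  IsClosed S → IsOpen O' → WN Ω S h → Harm O' h' → Ψ.source ⊆ O' → Ψ.source ⊆ Ω →
  ContDiffOn ℝ ∞ Ψ Ψ.source → ContDiffOn ℝ ∞ Ψ.symm Ψ.target → (∀ x ∈ Ψ.source, x ∈ S ↔ (Ψ x) 2 = 0) →
  (∀ x ∈ Ψ.source, x ∉ S → h x = h' x) →
  ∀ q ∈ Ψ.source, q ∈ S → ⟪gr h' q, gr (fun x => (Ψ x) 2) q⟫ = 0

/-! ## T: tubes -/

/-- a smooth parametrisation of a neighbourhood of the embedded disc `S` -/
structure Tube (Ω S : Set E) (Φ : OpenPartialHomeomorph E E) (δ : ℝ) : Prop where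
  pos : 0 < δ
  src : cthickening δ flatDisc ⊆ Φ.source
  tgt : Φ.target ⊆ Ω
  sm : ContDiffOn ℝ ∞ Φ Φ.source
  sms : ContDiffOn ℝ ∞ Φ.symm Φ.target
  img : Φ '' flatDisc = S

/-- embedded discs have tubes -/
def T_TUB : Prop := ∀ Ω S : Set E, IsOpen Ω → IsDisc Ω S → ∃ Φ δ, Tube Ω S Φ δ

/-- cracks and discs are compact null sets -/
def T_NLS : Prop := ∀ Ω S : Set E, (IsCrack Ω S → volume S = 0) ∧
  ∀ Φ δ, Tube Ω S Φ δ → volume S = 0 ∧ IsCompact S ∧ S ⊆ Ω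

/-- a disc does not disconnect the domain -/
def T_CNO : Prop := ∀ (Ω S : Set E) (Φ : OpenPartialHomeomorph E E) (δ : ℝ), IsOpen Ω → IsConnected Ω →
  Tube Ω S Φ δ → IsConnected (Ω \ S) ∧
  ∀ y0 ∈ flatDisc, ∀ ε > 0, ∃ W : Set E, IsOpen W ∧ Φ y0 ∈ W ∧ W ⊆ ball (Φ y0) ε ∧ W ⊆ Ω ∧
    (y0 0 ^ 2 + y0 1 ^ 2 = 1 → IsConnected W ∧ IsConnected (W \ S))

/-- charts at the interior points of the disc -/
def T_FCH : Prop := ∀ (Ω S : Set E) (Φ : OpenPartialHomeomorph E E) (δ : ℝ) (y0 : E), Tube Ω S Φ δ →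
  y0 ∈ flatDisc → y0 0 ^ 2 + y0 1 ^ 2 < 1 → ∀ N ∈ 𝓝 (Φ y0), ∃ Ψ : OpenPartialHomeomorph E E,
    Φ y0 ∈ Ψ.source ∧ Ψ (Φ y0) = 0 ∧ Ψ.source ⊆ N ∧ Ψ.source ⊆ Ω ∧ ContDiffOn ℝ ∞ Ψ Ψ.source ∧
    ContDiffOn ℝ ∞ Ψ.symm Ψ.target ∧ ∀ x ∈ Ψ.source, x ∈ S ↔ (Ψ x) 2 = 0

/-! ## F: the flux machine -/

/-- half balls -/
def HB (r : ℝ) : Set E := {y | ‖y‖ < r ∧ 0 < y 2}

/-- weak Neumann problem in a half ball with coefficients `A` -/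
structure HalfSol (A : E → Matrix (Fin 3) (Fin 3) ℝ) (r : ℝ) (w : E → ℝ) : Prop where
  rpos : 0 < r
  sm : ∀ i j, ContDiffOn ℝ ∞ (fun y => A y i j) (ball 0 (2 * r))
  symm : ∀ y i j, A y i j = A y j i
  ell : ∃ lam > 0, ∀ y ∈ ball (0 : E) (2 * r), ∀ ξ : Fin 3 → ℝ, lam * ∑ i, ξ i ^ 2 ≤ ∑ i, ∑ j, A y i j * ξ i * ξ j
  smw : ContDiffOn ℝ ∞ w (HB r)
  l2 : MemLp w 2 (volume.restrict (HB r))
  g2 : MemLp (gr w) 2 (volume.restrict (HB r))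
  weak : ∀ (φ : E → ℝ) (r' : ℝ), r' < r → ContDiffOn ℝ ∞ φ (HB r) → MemLp φ 2 (volume.restrict (HB r)) →
    MemLp (gr φ) 2 (volume.restrict (HB r)) → (∀ y ∈ HB r, r' ≤ ‖y‖ → φ y = 0) →
    ∫ y in HB r, ∑ i, ∑ j, A y i j * pd i w y * pd j φ y = 0

/-- tangential second derivatives are square integrable up to the flat part -/
def T_RG1 : Prop := ∀ (A : E → Matrix (Fin 3) (Fin 3) ℝ) (r : ℝ) (w : E → ℝ), HalfSol A r w →
  ∀ k l : Fin 3, k ≠ 2 → MemLp (pd k (pd l w)) 2 (volume.restrict (HB (3 * r / 4)))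

/-- the conormal flux is small in the mean near the flat part -/
def T_RG2 : Prop := ∀ (A : E → Matrix (Fin 3) (Fin 3) ℝ) (r : ℝ) (w : E → ℝ), HalfSol A r w →
  Tendsto (fun d : ℝ => d⁻¹ * ∫ y in HB (r / 2) ∩ {y | y 2 < d}, |∑ l, A y 2 l * pd l w y|)
    (𝓝[>] 0) (𝓝 0)

/-- the normal flux through the faces of the crack is small in the mean -/
def T_FCE : Prop := ∀ (Ω S : Set E) (Φ : OpenPartialHomeomorph E E) (δ : ℝ) (h : E → ℝ) (c : ℝ), IsOpen Ω →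
  Bornology.IsBounded Ω → Tube Ω S Φ δ → WN Ω S h → c < 1 →
  Tendsto (fun d : ℝ => d⁻¹ * ∫ x in Φ '' {y | y 0 ^ 2 + y 1 ^ 2 ≤ c ∧ |y 2| < d ∧ y 2 ≠ 0},
    |⟪gr h x, gr (fun z => (Φ.symm z) 2) x⟫|) (𝓝[>] 0) (𝓝 0)

/-- cutoffs of small energy near sets of zero capacity -/
def T_EDG : Prop := ∀ (Z : Set E) (C : ℝ), IsCompact Z → Z.Nonempty →
  (∀ r ∈ Ioc (0 : ℝ) 1, volume (thickening r Z) ≤ ENNReal.ofReal (C * r ^ 2)) → ∀ ε > 0,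
  ∃ κ : E → ℝ, (∃ K : ℝ≥0, LipschitzWith K κ) ∧ (∀ x, 0 ≤ κ x ∧ κ x ≤ 1) ∧
    (∃ η > 0, ∀ x, infDist x Z < η → κ x = 0) ∧ (∀ x, ε ≤ infDist x Z → κ x = 1) ∧
    Integrable (fun x => ‖gr κ x‖ ^ 2) ∧ ∫ x, ‖gr κ x‖ ^ 2 ≤ ε

/-- volume of tubes around the edge of the disc -/
def T_TBV : Prop := ∀ (Ω S : Set E) (Φ : OpenPartialHomeomorph E E) (δ : ℝ), Tube Ω S Φ δ →
  ∃ C : ℝ, ∀ r ∈ Ioc (0 : ℝ) 1,
    volume (thickening r (Φ '' {y | y 2 = 0 ∧ y 0 ^ 2 + y 1 ^ 2 = 1})) ≤ ENNReal.ofReal (C * r ^ 2)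

/-- no flux out of a flux free set: bounded test functions with compact support in the domain -/
def T_FM0 : Prop := ∀ (Ω S : Set E) (Φ : OpenPartialHomeomorph E E) (δ : ℝ) (h : E → ℝ) (D : Set E),
  IsOpen Ω → Bornology.IsBounded Ω → Tube Ω S Φ δ → WN Ω S h → IsOpen D → FF D (gr h) (Ω \ S) →
  ∀ (φ : E → ℝ) (K : Set E), ContDiffOn ℝ ∞ φ (Ω \ S) → (∃ M : ℝ, ∀ x, |φ x| ≤ M) →
    MemLp (gr φ) 2 (volume.restrict Ω) → IsCompact K → K ⊆ Ω → (∀ x ∈ Ω \ K, φ x = 0) →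
    ∫ x in D ∩ Ω, ⟪gr h x, gr φ x⟫ = 0

/-- flux free sets inside the domain carry no gradient -/
def T_FM2 : Prop := ∀ (Ω S : Set E) (Φ : OpenPartialHomeomorph E E) (δ : ℝ) (h : E → ℝ) (D : Set E),
  IsOpen Ω → Bornology.IsBounded Ω → Tube Ω S Φ δ → WN Ω S h → IsOpen D → closure D ⊆ Ω →
  FF D (gr h) (Ω \ S) → ∀ x ∈ D, x ∉ S → gr h x = 0

/-- flux free sets which touch the boundary -/
def T_FM1 : Prop := ∀ (Ω S : Set E) (Φ : OpenPartialHomeomorph E E) (δ : ℝ) (σ : Measure E) (ν : E → E)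
  (ψ h τ : E → ℝ) (D K : Set E), IsOpen Ω → Bornology.IsBounded Ω → IsSurf Ω σ ν → Tube Ω S Φ δ →
  MemLp ψ 2 σ → Harm (Ω \ S) h → Sol Ω S σ ν ψ h (gr h) τ → IsOpen D → Bornology.IsBounded D →
  IsCompact K → K ⊆ Ω → S ⊆ K → (∀ x ∈ closure D, x ∉ K → x ∈ D) → FF D (gr h) (Ω \ S) →
  ∫ x in D, ψ x ∂σ = 0

/-- the special profile excludes flux free sets which touch the boundary -/
def T_FM3 : Prop := ∀ (Ω : Set E) (σ : Measure E) (ν : E → E) (m : ℝ) (D K : Set E), Dom Ω → IsSurf Ω σ ν →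
  0 ≤ m → IsOpen D → Bornology.IsBounded D → IsCompact K → K ⊆ Ω → (∀ x ∈ closure D, x ∉ K → x ∈ D) →
  ∫ x in D, (⟪x, ν x⟫ - m) ∂σ = 0 → closure D ⊆ Ω

/-- the special profile -/
noncomputable def psi0 (Ω : Set E) (σ : Measure E) (ν : E → E) (x : E) : ℝ :=
  ⟪x, ν x⟫ - 3 * (volume Ω).toReal / (σ univ).toReal

/-- elementary facts on the explicit profiles -/
def T_PRO : Prop := ∀ (Ω : Set E) (σ : Measure E) (ν : E → E), Dom Ω → IsSurf Ω σ ν →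
  0 < (σ univ).toReal ∧ IsProfile σ (psi0 Ω σ ν) ∧ ∀ k : Fin 3, IsProfile σ (fun x => ν x k)

/-- constants do not solve the problem for the profiles `ν_k` -/
def T_NVC : Prop := ∀ (Ω S : Set E) (σ : Measure E) (ν : E → E) (h τ : Fin 3 → E → ℝ), Dom Ω →
  IsSurf Ω σ ν → IsCompact S → S ⊆ Ω → volume S = 0 → IsPreconnected (Ω \ S) → (∀ k, Harm (Ω \ S) (h k)) →
  (∀ k, Sol Ω S σ ν (fun x => ν x k) (h k) (gr (h k)) (τ k)) →
  ∀ W : Set E, IsOpen W → W.Nonempty → W ⊆ Ω \ S → ¬ ∀ k, ∀ x ∈ W, gr (h k) x = 0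

end Pool.Agent.H94.IC
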