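import Mathlib
import Pool.Agent.H94.IC.Targets2

/-!
# Insulating cracks, targets 3: the barrier at the boundary and the assembly
-/

open MeasureTheory Set Filter Topology Metric
open scoped ENNReal NNReal ContDiff RealInnerProductSpace

namespace Pool.Agent.H94.IC

/-! ## R: the relation lemma -/

/-- Poincaré inequality on cubes -/
def T_CUB : Prop := ∀ (a : E) (h : ℝ) (U : Set E) (v : E → ℝ), 0 < h → IsOpen U →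
  {x : E | ∀ k, a k ≤ x k ∧ x k ≤ a k + h} ⊆ U → ContDiffOn ℝ 1 v U →
  ∫ x in {x : E | ∀ k, a k < x k ∧ x k < a k + h}, v x = 0 →
  ∫ x in {x : E | ∀ k, a k < x k ∧ x k < a k + h}, v x ^ 2
    ≤ 3 * h ^ 2 * ∫ x in {x : E | ∀ k, a k < x k ∧ x k < a k + h}, ‖gr v x‖ ^ 2

/-- the cell below a Lipschitz graph over the square with centre `c` and side `h` -/
def TopCell (g : ℝ × ℝ → ℝ) (L : ℝ) (c : ℝ × ℝ) (h : ℝ) : Set E :=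
  {x | |x 0 - c.1| < h / 2 ∧ |x 1 - c.2| < h / 2 ∧ g c - L * h - h < x 2 ∧ x 2 < g (x 0, x 1)}

/-- the flat cube in the cell -/
def LowCell (g : ℝ × ℝ → ℝ) (L : ℝ) (c : ℝ × ℝ) (h : ℝ) : Set E :=
  {x | |x 0 - c.1| < h / 2 ∧ |x 1 - c.2| < h / 2 ∧ g c - L * h - h < x 2 ∧ x 2 < g c - L * h}

/-- Poincaré inequality in the cells below a Lipschitz graph -/
def T_TOP : Prop := ∀ (g : ℝ × ℝ → ℝ) (L : ℝ≥0) (c : ℝ × ℝ) (h : ℝ) (U : Set E) (v : E → ℝ),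
  LipschitzWith L g → 0 < h → IsOpen U → TopCell g L c h ⊆ U → closure (LowCell g L c h) ⊆ U →
  ContDiffOn ℝ 1 v U → IntegrableOn (fun x => v x ^ 2) (TopCell g L c h) →
  IntegrableOn (fun x => ‖gr v x‖ ^ 2) (TopCell g L c h) → ∫ x in LowCell g L c h, v x = 0 →
  ∫ x in TopCell g L c h, v x ^ 2 ≤ 20 * (1 + L) ^ 2 * h ^ 2 * ∫ x in TopCell g L c h, ‖gr v x‖ ^ 2

/-- decomposition into cells: finitely many averages control the `L²` norm -/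
def T_CEL : Prop := ∀ (L : ℝ≥0) (δ : ℝ), 0 < δ → ∃ m : ℕ, ∀ (g : ℝ × ℝ → ℝ) (x0 : E) (ρ : ℝ), LipschitzWith L g →
  0 < ρ → ∃ B : Fin m → Set E, (∀ i, MeasurableSet (B i) ∧ B i ⊆ {x | x ∈ ball x0 ρ ∧ x 2 < g (x 0, x 1)}) ∧
    ∀ v : E → ℝ, ContDiffOn ℝ ∞ v {x | x ∈ ball x0 ρ ∧ x 2 < g (x 0, x 1)} →
      IntegrableOn (fun x => v x ^ 2) {x | x ∈ ball x0 ρ ∧ x 2 < g (x 0, x 1)} →
      IntegrableOn (fun x => ‖gr v x‖ ^ 2) {x | x ∈ ball x0 ρ ∧ x 2 < g (x 0, x 1)} →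
      (∀ i, ∫ x in B i, v x = 0) →
      ∫ x in {x | x ∈ ball x0 (ρ / 2) ∧ x 2 < g (x 0, x 1)}, v x ^ 2
        ≤ (δ * ρ) ^ 2 * ∫ x in {x | x ∈ ball x0 ρ ∧ x 2 < g (x 0, x 1)}, ‖gr v x‖ ^ 2

/-- Caccioppoli inequality -/
def Cac (C : ℝ) (Ω : Set E) (x0 : E) (ρ : ℝ) (v : E → ℝ) : Prop :=
  ∫ x in Ω ∩ ball x0 (ρ / 4), ‖gr v x‖ ^ 2 ≤ C / ρ ^ 2 * ∫ x in Ω ∩ ball x0 (ρ / 2), v x ^ 2

/-- functions with zero Neumann data on the boundary of the domain -/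
structure ZN (Ω S : Set E) (σ : Measure E) (ν : E → E) (v τ : E → ℝ) : Prop where
  harm : Harm (Ω \ S) v
  hs : HS1 Ω S σ ν v (gr v) τ
  weak : ∀ (φ : E → ℝ) (G : E → E) (κ : E → ℝ), HS1 Ω S σ ν φ G κ →
    (∃ W : Set E, IsOpen W ∧ S ⊆ W ∧ ∀ x ∈ W, φ x = 0 ∧ G x = 0) → ∫ x in Ω, ⟪gr v x, G x⟫ = 0

/-- Caccioppoli inequality up to the boundary -/
def T_CAC : Prop := ∃ C : ℝ, 0 < C ∧ ∀ (Ω S : Set E) (σ : Measure E) (ν : E → E) (v τ : E → ℝ) (x0 : E) (ρ : ℝ),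
  IsOpen Ω → Bornology.IsBounded Ω → IsSurf Ω σ ν → IsCompact S → S ⊆ Ω → ZN Ω S σ ν v τ → 0 < ρ →
  (∀ x ∈ S, ρ ≤ dist x x0) → Cac C Ω x0 ρ v

/-- contraction of the energy on a subspace of finite codimension -/
def T_CTR : Prop := ∀ (Ω : Set E) (C : ℝ), Dom Ω → 0 < C → ∃ (m : ℕ) (r0 : ℝ), 0 < r0 ∧
  ∀ (x0 : E) (ρ : ℝ), infDist x0 (frontier Ω) < r0 → 0 < ρ → ρ ≤ r0 →
    ∃ B : Fin m → Set E, (∀ i, MeasurableSet (B i) ∧ B i ⊆ Ω ∩ ball x0 ρ) ∧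
    ∀ v : E → ℝ, ContDiffOn ℝ ∞ v (Ω ∩ ball x0 ρ) → IntegrableOn (fun x => v x ^ 2) (Ω ∩ ball x0 ρ) →
      IntegrableOn (fun x => ‖gr v x‖ ^ 2) (Ω ∩ ball x0 ρ) → Cac C Ω x0 ρ v →
      (∀ i, ∫ x in B i, v x = 0) →
      ∫ x in Ω ∩ ball x0 (ρ / 4), ‖gr v x‖ ^ 2
        ≤ (1 / 256) ^ 2 * ∫ x in Ω ∩ ball x0 ρ, ‖gr v x‖ ^ 2

/-- determinants of positive semidefinite matrices -/
def T_DET : Prop := ∀ (p m : ℕ) (M0 M1 : Matrix (Fin p) (Fin p) ℝ) (A : Matrix (Fin m) (Fin p) ℝ) (η : ℝ),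
  0 < η → η ≤ 1 → M0.PosSemidef → M1.PosSemidef →
  (∀ x : Fin p → ℝ, x ⬝ᵥ M1.mulVec x ≤ x ⬝ᵥ M0.mulVec x) →
  (∀ x : Fin p → ℝ, A.mulVec x = 0 → x ⬝ᵥ M1.mulVec x ≤ η ^ 2 * (x ⬝ᵥ M0.mulVec x)) →
  M1.det ≤ η ^ (2 * (p - m)) * M0.det

/-- the Gram determinant argument: a combination of `p ≥ 2m` functionals which is small on the whole space -/
def T_GRM : Prop := ∀ (p m k : ℕ) (V : Type) [AddCommGroup V] [Module ℝ V] (Q : ℕ → LinearMap.BilinForm ℝ V)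
  (A : ℕ → V →ₗ[ℝ] (Fin m → ℝ)) (l : Fin p → V →ₗ[ℝ] ℝ) (B η : ℝ), 2 * m ≤ p → 0 < p → 0 ≤ B → 0 < η → η ≤ 1 →
  (∀ i v, 0 ≤ Q i v v) → (∀ i v w, Q i v w = Q i w v) → (∀ i v, Q (i + 1) v v ≤ Q i v v) →
  (∀ i v, A i v = 0 → Q (i + 1) v v ≤ η ^ 2 * Q i v v) → (∀ r v, (l r v) ^ 2 ≤ B ^ 2 * Q k v v) →
  ∃ a : Fin p → ℝ, ∑ r, a r ^ 2 = 1 ∧ ∀ v, (∑ r, a r * l r v) ^ 2 ≤ 4 * p * B ^ 2 * η ^ k * Q 0 v v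

/-- interior gradient bound -/
def T_MVG : Prop := ∀ (O : Set E) (v : E → ℝ) (x : E) (r : ℝ), Harm O v → 0 < r → ball x r ⊆ O →
  IntegrableOn (fun y => ‖gr v y‖ ^ 2) (ball x r) →
  ‖gr v x‖ ^ 2 ≤ r⁻¹ ^ 3 * ∫ y in ball x r, ‖gr v y‖ ^ 2

/-- the relation lemma -/
def T_REL : Prop := ∀ Ω : Set E, Dom Ω → ∃ (n : ℕ) (C s0 : ℝ), 1 ≤ n ∧ 0 < s0 ∧ 0 < C ∧
  ∀ (σ : Measure E) (ν : E → E) (S : Set E) (ρ s : ℝ), IsSurf Ω σ ν → IsCompact S → S ⊆ Ω →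
  0 < ρ → ρ ≤ s0 → (∀ x ∈ S, 2 * ρ ≤ infDist x (frontier Ω)) → 0 < s → 16 * s ≤ ρ →
  ∀ (x nv : Fin (n + 1) → E), (∀ r, x r ∈ Ω ∧ s ≤ infDist (x r) (frontier Ω) ∧ infDist (x r) (frontier Ω) ≤ 2 * s) →
  (∀ r, ‖x r - x 0‖ ≤ s) → (∀ r, ‖nv r‖ = 1) →
  ∃ a : Fin (n + 1) → ℝ, (∀ r, |a r| ≤ 1) ∧ (∃ r, |a r| = 1) ∧ ∑ r, a r • nv r = 0 ∧
    ∀ v τ, ZN Ω S σ ν v τ →
      |∑ r, a r * ⟪gr v (x r), nv r⟫| ≤ C * Real.sqrt s / ρ ^ 2 * Real.sqrt (∫ x in Ω, ‖gr v x‖ ^ 2)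

/-! ## N: the noise -/

/-- multipoles -/
noncomputable def HH (w : E) (k : ℕ) : E → ℝ := (fun (f : E → ℝ) (y : E) => fderiv ℝ f y w)^[k] (fun y => ‖y‖⁻¹)

/-- bounds for multipoles -/
def T_MUL : Prop := ∀ (w : E) (k : ℕ), Harm {0}ᶜ (HH w k) ∧ ∃ C : ℝ, ∀ y : E, y ≠ 0 →
  |HH w k y| ≤ C * (‖y‖⁻¹) ^ (k + 1) ∧ ‖gr (HH w k) y‖ ≤ C * (‖y‖⁻¹) ^ (k + 2) ∧
  ‖fderiv ℝ (gr (HH w k)) y‖ ≤ C * (‖y‖⁻¹) ^ (k + 3)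

/-- multipoles are the Taylor coefficients of the potential of a point charge -/
def T_MTY : Prop := ∀ (w y : E) (k : ℕ), y ≠ 0 →
  iteratedDeriv k (fun t : ℝ => ‖y - t • w‖⁻¹) 0 = (-1) ^ k * HH w k y

/-- dipole potentials at finitely many points: some derivative of order at least two at the origin is not zero -/
def T_DIP : Prop := ∀ (n : ℕ) (y nv : Fin (n + 1) → E) (a : Fin (n + 1) → ℝ), (∀ r, y r ≠ 0) →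
  Function.Injective y → (∀ r, ‖nv r‖ = 1) → (∃ r, a r ≠ 0) →
  ∃ (w : E) (k : ℕ), ‖w‖ = 1 ∧ 2 ≤ k ∧ ∑ r, a r * ⟪gr (HH w k) (y r), nv r⟫ ≠ 0

/-- the independence lemma -/
def T_IND : Prop := ∀ n : ℕ, 1 ≤ n → ∃ (F : Finset (E × ℕ)) (c0 : ℝ), 0 < c0 ∧ (∀ q ∈ F, ‖q.1‖ = 1 ∧ 2 ≤ q.2) ∧
  ∀ (y nv : Fin (n + 1) → E) (a : Fin (n + 1) → ℝ), (∀ r, 1 ≤ ‖y r‖ ∧ ‖y r‖ ≤ 6) →
  (∀ r r', r ≠ r' → 1 / (n : ℝ) ≤ ‖y r - y r'‖) → (∀ r, ‖nv r‖ = 1) → (∀ r, |a r| ≤ 1) → (∃ r, |a r| = 1) →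
  ∃ q ∈ F, c0 ≤ |∑ r, a r * ⟪gr (HH q.1 q.2) (y r), nv r⟫|

/-- lattice points -/
noncomputable def lp (κ : Fin 3 → ℤ) : E := WithLp.toLp 2 fun k => (κ k : ℝ) / 2

/-- lattice sums -/
def T_LAT : Prop := ∀ c : ℝ, 0 < c → ∃ C : ℝ, 0 < C ∧ ∀ (y : E) (T : ℝ) (F : Finset (Fin 3 → ℤ))
  (d : (Fin 3 → ℤ) → ℝ), c ≤ T → (∀ κ ∈ F, T ≤ d κ ∧ ‖y - lp κ‖ - 3 ≤ d κ) → ∑ κ ∈ F, (d κ)⁻¹ ^ 4 ≤ C / T

/-- exterior corkscrew points, and interior points at a given distance -/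
def T_XCK : Prop := ∀ Ω : Set E, Dom Ω → ∃ c s1 : ℝ, 0 < c ∧ c ≤ 1 ∧ 0 < s1 ∧
  (∀ q ∈ frontier Ω, ∀ s ∈ Ioc 0 s1, ∃ p : E, dist p q ≤ s ∧ ∀ x ∈ closure Ω, c * s ≤ dist x p) ∧
  (∀ s ∈ Ioc 0 s1, ∃ x ∈ Ω, infDist x (frontier Ω) = 2 * s)

/-- the scales -/
noncomputable def ss (j : ℕ) : ℝ := (2 : ℝ)⁻¹ ^ (j ^ 2)

/-- the amplitudes -/
noncomputable def ee (j : ℕ) : ℝ := (2 : ℝ)⁻¹ ^ j

/-- poles of the noise at all scales `j ≥ j1` -/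
structure Poles (Ω : Set E) (c : ℝ) (j1 : ℕ) (Z : ℕ → Finset (Fin 3 → ℤ)) (P : ℕ → (Fin 3 → ℤ) → E) : Prop where
  far : ∀ j, j1 ≤ j → ∀ κ ∈ Z j, ∀ x ∈ closure Ω, c * ss j ≤ dist x (P j κ)
  near : ∀ j, j1 ≤ j → ∀ κ ∈ Z j, dist (P j κ) (ss j • lp κ) ≤ 2 * ss j
  cover : ∀ j, j1 ≤ j → ∀ q ∈ frontier Ω, ∃ κ ∈ Z j, dist q (P j κ) ≤ 2 * ss j
  bdd : ∃ R : ℝ, ∀ j, j1 ≤ j → ∀ κ ∈ Z j, ‖P j κ‖ ≤ R

/-- poles exist -/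
def T_PLS : Prop := ∀ Ω : Set E, Dom Ω → ∃ (c : ℝ) (j1 : ℕ) (Z : ℕ → Finset (Fin 3 → ℤ)) (P : ℕ → (Fin 3 → ℤ) → E),
  0 < c ∧ c ≤ 1 ∧ Poles Ω c j1 Z P

/-- residue class modulo `K` -/
def cls (K : ℕ) (g : Fin 3 → ZMod K) (κ : Fin 3 → ℤ) : Prop := ∀ k, ((κ k : ℤ) : ZMod K) = g k

open Classical in
/-- the part of the noise at scale `j` -/
noncomputable def Uj (Z : ℕ → Finset (Fin 3 → ℤ)) (P : ℕ → (Fin 3 → ℤ) → E) (K : ℕ) (g : Fin 3 → ZMod K)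
    (w : E) (k j : ℕ) (x : E) : ℝ :=
  ee j * ss j * ∑ κ ∈ (Z j).filter (cls K g), HH w k ((ss j)⁻¹ • (x - P j κ))

/-- bounds for the parts of the noise -/
def T_NJB : Prop := ∀ (Ω : Set E) (c : ℝ) (j1 : ℕ) (Z : ℕ → Finset (Fin 3 → ℤ)) (P : ℕ → (Fin 3 → ℤ) → E)
  (w : E) (k : ℕ), Dom Ω → Poles Ω c j1 Z P → 0 < c → c ≤ 1 → 2 ≤ k → ∃ C : ℝ, 0 < C ∧ ∀ (K : ℕ) (g : Fin 3 → ZMod K) (j : ℕ),
    1 ≤ K → j1 ≤ j →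
    (∀ x, infDist x (closure Ω) < c * ss j / 2 → |Uj Z P K g w k j x| ≤ C * ee j ∧
      ‖gr (Uj Z P K g w k j) x‖ ≤ C * ee j ∧ ‖fderiv ℝ (gr (Uj Z P K g w k j)) x‖ ≤ C * ee j / ss j) ∧
    (∀ x T, 1 ≤ T → infDist x (closure Ω) < c * ss j / 2 → (∀ κ ∈ Z j, cls K g κ → T * ss j ≤ dist x (P j κ)) →
      ‖gr (Uj Z P K g w k j) x‖ ≤ C * ee j / T) ∧
    (∀ x, ∀ κ0 ∈ Z j, cls K g κ0 → infDist x (closure Ω) < c * ss j / 2 → dist x (P j κ0) ≤ 6 * ss j →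
      ‖gr (Uj Z P K g w k j) x - ee j • gr (HH w k) ((ss j)⁻¹ • (x - P j κ0))‖ ≤ C * ee j / K) ∧
    Harm {x | infDist x (closure Ω) < c * ss j / 2} (Uj Z P K g w k j)

/-- a noise function: harmonic inside, gradient `GU` continuous up to the boundary, Gauss-Green -/
structure Noise (Ω : Set E) (σ : Measure E) (ν : E → E) (U : E → ℝ) (GU : E → E) : Prop where
  harm : Harm Ω U
  grad : ∀ x ∈ Ω, gr U x = GU x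
  cont : ContinuousOn GU (closure Ω)
  prof : IsProfile σ (fun x => ⟪GU x, ν x⟫)
  hs : ∀ S : Set E, IsCompact S → S ⊆ Ω → HS1 Ω S σ ν U GU U
  green : ∀ (S : Set E) (φ : E → ℝ) (G : E → E) (κ : E → ℝ), IsCompact S → S ⊆ Ω → HS1 Ω S σ ν φ G κ →
    (∃ W : Set E, IsOpen W ∧ S ⊆ W ∧ ∀ x ∈ W, φ x = 0 ∧ G x = 0) →
    ∫ x in Ω, ⟪GU x, G x⟫ = ∫ x, κ x * ⟪GU x, ν x⟫ ∂σ

/-- limits of series of harmonic functions with summable bounds are noise functions -/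
def T_NSR : Prop := ∀ (Ω : Set E) (σ : Measure E) (ν : E → E) (V : ℕ → E → ℝ) (c b : ℕ → ℝ), Dom Ω → IsSurf Ω σ ν →
  (∀ j, 0 < c j) → Summable b → (∀ j, Harm {x | infDist x (closure Ω) < c j} (V j)) →
  (∀ j, ∀ x ∈ closure Ω, |V j x| ≤ b j ∧ ‖gr (V j) x‖ ≤ b j) →
  Noise Ω σ ν (fun x => ∑' j, V j x) (fun x => ∑' j, gr (V j) x)

/-- the noise family -/
def T_NSE : Prop := ∀ (Ω : Set E) (σ : Measure E) (ν : E → E) (F : Finset (E × ℕ)) (ε : ℝ), Dom Ω → IsSurf Ω σ ν →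
  (∀ q ∈ F, ‖q.1‖ = 1 ∧ 2 ≤ q.2) → 0 < ε → ∃ (M : ℕ) (U : Fin M → E → ℝ) (GU : Fin M → E → E),
    (∀ i, Noise Ω σ ν (U i) (GU i)) ∧
    ∃ j0 : ℕ, ∀ j, j0 ≤ j → ∀ x0 ∈ Ω, infDist x0 (frontier Ω) ≤ 2 * ss j → ∃ P : E,
      (∀ x ∈ Ω, dist x x0 ≤ ss j → ss j ≤ infDist x (frontier Ω) →
        ss j ≤ dist x P ∧ dist x P ≤ 6 * ss j) ∧
      ∀ q ∈ F, ∃ (i : Fin M) (b : E), ∀ x ∈ Ω, dist x x0 ≤ ss j → ss j ≤ infDist x (frontier Ω) →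
        ‖gr (U i) x - b - ee j • gr (HH q.1 q.2) ((ss j)⁻¹ • (x - P))‖ ≤ ε * ee j

/-- the barrier property of a family of profiles: no separated configurations of points of rank at most two in
suitable thin layers at the boundary -/
def Barrier {M : ℕ} (Ω : Set E) (σ : Measure E) (ν : E → E) (ψ : Fin M → E → ℝ) : Prop := ∃ n : ℕ, 1 ≤ n ∧
  ∀ (S : Set E) (h τ : Fin M → E → ℝ), IsCompact S → S ⊆ Ω → (∀ i, Harm (Ω \ S) (h i)) →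
  (∀ i, Sol Ω S σ ν (ψ i) (h i) (gr (h i)) (τ i)) → ∀ ε > 0, ∃ s ∈ Ioo 0 ε, ∀ x : Fin (n + 1) → E,
    (∀ r, x r ∈ Ω ∧ s ≤ infDist (x r) (frontier Ω) ∧ infDist (x r) (frontier Ω) ≤ 2 * s) →
    (∀ r, ‖x r - x 0‖ = ((r : ℕ) : ℝ) * s / n) →
    ∃ r, ¬ ∃ v : E, ‖v‖ = 1 ∧ ∀ i, ⟪gr (h i) (x r), v⟫ = 0

/-- families with the barrier property exist -/
def T_BAR : Prop := ∀ (Ω : Set E) (σ : Measure E) (ν : E → E), Dom Ω → IsSurf Ω σ ν →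
  ∃ (M : ℕ) (ψ : Fin M → E → ℝ), (∀ i, IsProfile σ (ψ i)) ∧ Barrier Ω σ ν ψ

/-- complete families of profiles -/
structure Fam {N : ℕ} (Ω : Set E) (σ : Measure E) (ν : E → E) (ψ : Fin N → E → ℝ) : Prop where
  prof : ∀ i, IsProfile σ (ψ i)
  bar : Barrier Ω σ ν ψ
  special : ∃ i, ψ i = psi0 Ω σ ν
  nor : ∀ k : Fin 3, ∃ i, ψ i = fun x => ν x k

def T_FAM : Prop := ∀ (Ω : Set E) (σ : Measure E) (ν : E → E), Dom Ω → IsSurf Ω σ ν →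
  ∃ (N : ℕ) (ψ : Fin N → E → ℝ), Fam Ω σ ν ψ

/-- nontriviality from the barrier property -/
def T_NTV : Prop := ∀ (N : ℕ) (Ω S : Set E) (σ : Measure E) (ν : E → E) (ψ h τ : Fin N → E → ℝ), Dom Ω →
  IsSurf Ω σ ν → Barrier Ω σ ν ψ → IsCompact S → S ⊆ Ω → (∀ i, Harm (Ω \ S) (h i)) →
  (∀ i, Sol Ω S σ ν (ψ i) (h i) (gr (h i)) (τ i)) → NonTriv (Ω \ S) h

/-- separation: closed sets without separated configurations in the layer split -/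
def T_YIN : Prop := ∀ (Ω S Y : Set E) (n : ℕ) (s : ℝ), IsOpen Ω → Bornology.IsBounded Ω → IsCompact S → S ⊆ Ω →
  1 ≤ n → 0 < s → (∀ x ∈ S, 2 * s < infDist x (frontier Ω)) → Y ⊆ Ω \ S →
  (∀ x ∈ Ω \ S, x ∉ Y → ∀ᶠ y in 𝓝 x, y ∉ Y) →
  (∀ x : Fin (n + 1) → E,
    (∀ r, x r ∈ Y ∧ s ≤ infDist (x r) (frontier Ω) ∧ infDist (x r) (frontier Ω) ≤ 2 * s) →
    ¬ ∀ r, ‖x r - x 0‖ = ((r : ℕ) : ℝ) * s / n) →
  ∃ Yi : Set E, Yi ⊆ Y ∧ (∀ x ∈ Y, 2 * s < infDist x (frontier Ω) → x ∈ Yi) ∧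
    (∀ x ∈ Yi, s ≤ infDist x (frontier Ω)) ∧ ∀ p ∉ S, ∃ N ∈ 𝓝 p, (Yi ∩ N = Y ∩ N) ∨ (Yi ∩ N = ∅)

/-! ## M: assembly -/

/-- solutions solve the weak Neumann problem near the crack -/
def T_WNS : Prop := ∀ (Ω S : Set E) (σ : Measure E) (ν : E → E) (ψ h τ : E → ℝ), IsOpen Ω →
  Bornology.IsBounded Ω → IsSurf Ω σ ν → IsCompact S → S ⊆ Ω → Harm (Ω \ S) h →
  Sol Ω S σ ν ψ h (gr h) τ → WN Ω S h

/-- locality of the notions of analytic sets and graph points -/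
def T_ANL : Prop := ∀ (Y Y' N : Set E) (p : E), N ∈ 𝓝 p →
  (Y' ∩ N = Y ∩ N → AN Y p → AN Y' p) ∧ (Y' ∩ N = ∅ → AN Y' p) ∧
  (Y' ∩ N = Y ∩ N → GrPt Y p → GrPt Y' p)

/-- the invisible set of a disc has no graph points -/
def T_NGP : Prop := ∀ (N : ℕ) (Ω S : Set E) (σ : Measure E) (ν : E → E) (ψ h τ : Fin N → E → ℝ)
  (Φ : OpenPartialHomeomorph E E) (δ : ℝ), Dom Ω → IsSurf Ω σ ν → Fam Ω σ ν ψ → Tube Ω S Φ δ →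
  (∀ i, Harm (Ω \ S) (h i)) → (∀ i, Sol Ω S σ ν (ψ i) (h i) (gr (h i)) (τ i)) →
  ∀ p : E, ¬ GrPt (Inv (Ω \ S) h) p

/-- equal measurements: the potentials agree off the two cracks -/
def T_EQL : Prop := ∀ (N : ℕ) (Ω S S' : Set E) (σ : Measure E) (ν : E → E) (ψ h h' τ τ' : Fin N → E → ℝ)
  (Φ : OpenPartialHomeomorph E E) (δ : ℝ), Dom Ω → IsSurf Ω σ ν → Fam Ω σ ν ψ → IsCrack Ω S → Tube Ω S' Φ δ →
  (∀ i, Harm (Ω \ S) (h i)) → (∀ i, Sol Ω S σ ν (ψ i) (h i) (gr (h i)) (τ i)) →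
  (∀ i, Harm (Ω \ S') (h' i)) → (∀ i, Sol Ω S' σ ν (ψ i) (h' i) (gr (h' i)) (τ' i)) →
  (∀ i, τ i =ᵐ[σ] τ' i) → ∀ i, ∀ x ∈ Ω, x ∉ S → x ∉ S' → h i x = h' i x

/-- interior points are dense in a crack -/
def T_SQI : Prop := ∀ (Ω S : Set E), IsCrack Ω S → S ⊆ closure (intPts S)

/-- case A: the general crack is contained in the disc -/
def T_CSA : Prop := ∀ (N : ℕ) (Ω S S' : Set E) (σ : Measure E) (ν : E → E) (ψ h h' τ τ' : Fin N → E → ℝ)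
  (Φ : OpenPartialHomeomorph E E) (δ : ℝ), Dom Ω → IsSurf Ω σ ν → Fam Ω σ ν ψ → IsCrack Ω S → Tube Ω S' Φ δ →
  (∀ i, Harm (Ω \ S) (h i)) → (∀ i, Sol Ω S σ ν (ψ i) (h i) (gr (h i)) (τ i)) →
  (∀ i, Harm (Ω \ S') (h' i)) → (∀ i, Sol Ω S' σ ν (ψ i) (h' i) (gr (h' i)) (τ' i)) →
  (∀ i, ∀ x ∈ Ω, x ∉ S → x ∉ S' → h i x = h' i x) → S ⊆ S'

/-- case B1: the edge of the disc is contained in the general crack -/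
def T_CSB : Prop := ∀ (N : ℕ) (Ω S S' : Set E) (σ : Measure E) (ν : E → E) (ψ h h' τ τ' : Fin N → E → ℝ)
  (Φ : OpenPartialHomeomorph E E) (δ : ℝ), Dom Ω → IsSurf Ω σ ν → Fam Ω σ ν ψ → IsCrack Ω S → Tube Ω S' Φ δ →
  (∀ i, Harm (Ω \ S) (h i)) → (∀ i, Sol Ω S σ ν (ψ i) (h i) (gr (h i)) (τ i)) →
  (∀ i, Harm (Ω \ S') (h' i)) → (∀ i, Sol Ω S' σ ν (ψ i) (h' i) (gr (h' i)) (τ' i)) →
  (∀ i, ∀ x ∈ Ω, x ∉ S → x ∉ S' → h i x = h' i x) → S ⊆ S' →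
  ∀ y : E, y 2 = 0 → y 0 ^ 2 + y 1 ^ 2 = 1 → Φ y ∈ S

/-- injective continuous self maps of the circle are surjective -/
def T_CIR : Prop := ∀ f : Circle → Circle, Continuous f → Function.Injective f → Function.Surjective f

/-- interior points of a crack inside a disc: openness -/
def T_SUB : Prop := ∀ (Ω S S' : Set E) (Φ : OpenPartialHomeomorph E E) (δ : ℝ) (y : E), Tube Ω S' Φ δ →
  S ⊆ S' → y ∈ flatDisc → Φ y ∈ intPts S → ∃ ε > 0, ∀ y' : E, y' 2 = 0 → ‖y' - y‖ < ε →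
    y' ∈ flatDisc ∧ Φ y' ∈ S

/-- case B2: a crack inside a disc which contains the edge of the disc is the disc -/
def T_CSC : Prop := ∀ (Ω S S' : Set E) (Φ : OpenPartialHomeomorph E E) (δ : ℝ), Tube Ω S' Φ δ → IsCrack Ω S →
  S ⊆ S' → (∀ y : E, y 2 = 0 → y 0 ^ 2 + y 1 ^ 2 = 1 → Φ y ∈ S) → S = S'

/-- THE THEOREM -/
def T_MAIN : Prop := MainStatement

end Pool.Agent.H94.IC
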