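import Mathlib
import Pool.Agent.H94.IC.Targets3

/-!
# The invisible set of a disc has no graph points
-/

open MeasureTheory Set Filter Topology Metric
open scoped ENNReal NNReal ContDiff RealInnerProductSpace

namespace Pool.Agent.H94.IC

/-- the frontier is not empty -/
lemma ngp_frontier_ne {Ω : Set E} (hΩ : Dom Ω) : (frontier Ω).Nonempty := by
  rw [nonempty_frontier_iff]
  refine ⟨hΩ.conn.nonempty, fun h1 => ?_⟩
  have := hΩ.bdd
  rw [h1] at this
  exact NormedSpace.unbounded_univ ℝ E this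

/-- the distance to the frontier is positive at interior points -/
lemma ngp_infDist_pos {Ω : Set E} (hΩ : Dom Ω) {x : E} (hx : x ∈ Ω) :
    0 < infDist x (frontier Ω) := by
  have hcl : IsClosed (frontier Ω) := isClosed_frontier
  rw [← hcl.notMem_iff_infDist_pos (ngp_frontier_ne hΩ)]
  intro h
  have : x ∈ Ω ∩ frontier Ω := ⟨hx, h⟩
  rw [hΩ.op.inter_frontier_eq] at this
  exact this

/-- points outside are at least as far as the frontier -/
lemma ngp_infDist_le {Ω : Set E} (hΩ : Dom Ω) {x q : E} (hx : x ∈ Ω) (hq : q ∉ Ω) :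
    infDist x (frontier Ω) ≤ dist x q := by
  have hseg : IsPreconnected (segment ℝ x q) := (convex_segment x q).isPreconnected
  have hmeet : (segment ℝ x q ∩ frontier Ω).Nonempty := by
    by_contra hne
    rw [not_nonempty_iff_eq_empty] at hne
    have hsub : segment ℝ x q ⊆ Ω ∪ (closure Ω)ᶜ := by
      intro y hy
      by_cases hyΩ : y ∈ Ω
      · exact Or.inl hyΩ
      · refine Or.inr fun hyc => ?_
        have : y ∈ segment ℝ x q ∩ frontier Ω := by
          refine ⟨hy, ?_⟩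
          rw [hΩ.op.frontier_eq]
          exact ⟨hyc, hyΩ⟩
        rw [hne] at this
        exact this
    have hdis : Disjoint Ω (closure Ω)ᶜ := by
      rw [Set.disjoint_compl_right_iff_subset]
      exact subset_closure
    have h1 := IsPreconnected.subset_left_of_subset_union hΩ.op isClosed_closure.isOpen_compl hdis hsub
      ⟨x, left_mem_segment ℝ x q, hx⟩ hseg
    exact hq (h1 (right_mem_segment ℝ x q))
  obtain ⟨z, hz, hzf⟩ := hmeet
  refine (infDist_le_dist_of_mem hzf).trans ?_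
  rw [segment_eq_image_lineMap] at hz
  obtain ⟨t, ht, rfl⟩ := hz
  rw [dist_comm, dist_lineMap_left, dist_comm]
  rw [Real.norm_eq_abs, abs_of_nonneg ht.1]
  have h2 : 0 ≤ dist x q := dist_nonneg
  rw [dist_comm q x]
  nlinarith [ht.2]

/-- complements of balls are connected -/
lemma ngp_preconn (R : ℝ) (hR : 0 ≤ R) : IsPreconnected {x : E | R < ‖x‖} := by
  have hrank : 1 < Module.rank ℝ E := by
    rw [← Module.finrank_eq_rank]
    simp
  have h1 : IsPreconnected (Ioi R ×ˢ sphere (0 : E) 1) :=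
    isPreconnected_Ioi.prod (isPreconnected_sphere hrank 0 1)
  have h2 : {x : E | R < ‖x‖} = (fun q : ℝ × E => q.1 • q.2) '' (Ioi R ×ˢ sphere (0 : E) 1) := by
    ext x
    simp only [mem_setOf_eq, mem_image, mem_prod, mem_Ioi, mem_sphere_iff_norm, sub_zero, Prod.exists]
    constructor
    · intro hx
      have hx0 : 0 < ‖x‖ := hR.trans_lt hx
      refine ⟨‖x‖, ‖x‖⁻¹ • x, ⟨hx, ?_⟩, ?_⟩
      · rw [norm_smul, norm_inv, norm_norm]
        exact inv_mul_cancel₀ hx0.ne'
      · rw [smul_smul, mul_inv_cancel₀ hx0.ne', one_smul]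
    · rintro ⟨t, v, ⟨ht, hv⟩, rfl⟩
      rw [norm_smul, hv, mul_one, Real.norm_eq_abs]
      exact ht.trans_le (le_abs_self t)
  rw [h2]
  exact h1.image _ (by fun_prop)

theorem ngp (hNTV : T_NTV) (hCNO : T_CNO) (hINC : T_INC) (hRK2 : T_RK2) (hYIN : T_YIN) (hANL : T_ANL)
    (hSIG : T_SIG) (hFLX : T_FLX) (hFM1 : T_FM1) (hFM3 : T_FM3) (hFM2 : T_FM2) (hNVC : T_NVC) (hNLS : T_NLS)
    (hWNS : T_WNS) : T_NGP := by
  intro N Ω S σ ν ψ h τ Φ δ hΩ hσ hF hT hH hSol p hp
  obtain ⟨hS0, hSc, hSΩ⟩ := (hNLS Ω S).2 Φ δ hT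
  have hconn : IsConnected (Ω \ S) := (hCNO Ω S Φ δ hΩ.op hΩ.conn hT).1
  have hopen : IsOpen (Ω \ S) := hΩ.op.sdiff hSc.isClosed
  have hNT : NonTriv (Ω \ S) h := hNTV N Ω S σ ν ψ h τ hΩ hσ hF.bar hSc hSΩ hH hSol
  obtain ⟨-, hYcl, hYan⟩ := hINC N (Ω \ S) h hopen hH
  obtain ⟨hAN, -⟩ := hYan hconn.isPreconnected hNT
  set Y : Set E := Inv (Ω \ S) h with hYdef
  have hYsub : Y ⊆ Ω \ S := fun x hx => hx.1
  -- the point p
  have hpY : p ∈ Y := by
    obtain ⟨T, r, hh, g, hG⟩ := hp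
    have h0 : p ∈ Bx T p r hh := by
      simp only [Bx, mem_setOf_eq, sub_self, map_zero, PiLp.zero_apply, abs_zero]
      exact ⟨hG.rpos, hG.rpos, hG.hpos⟩
    rw [hG.eq p h0]
    simp only [sub_self, map_zero, PiLp.zero_apply]
    exact hG.zero.symm
  have hpΩ : p ∈ Ω := (hYsub hpY).1
  have hpS : p ∉ S := (hYsub hpY).2
  -- the distance d
  obtain ⟨d, hd0, hd⟩ : ∃ d : ℝ, 0 < d ∧ ∀ x ∈ insert p S, d ≤ infDist x (frontier Ω) := by
    obtain ⟨x0, hx0, hmin⟩ := (hSc.insert p).exists_isMinOn (insert_nonempty p S)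
      (continuous_infDist_pt (frontier Ω)).continuousOn
    refine ⟨infDist x0 (frontier Ω), ngp_infDist_pos hΩ ?_, fun x hx => hmin hx⟩
    rcases hx0 with rfl | hx0
    · exact hpΩ
    · exact hSΩ hx0
  -- the barrier
  obtain ⟨n, hn, hbar⟩ := hF.bar
  obtain ⟨s, ⟨hs0, hs⟩, hbs⟩ := hbar S h τ hSc hSΩ hH hSol (d / 2) (by positivity)
  have hconf : ∀ x : Fin (n + 1) → E,
      (∀ r, x r ∈ Y ∧ s ≤ infDist (x r) (frontier Ω) ∧ infDist (x r) (frontier Ω) ≤ 2 * s) →
      ¬ ∀ r, ‖x r - x 0‖ = ((r : ℕ) : ℝ) * s / n := by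
    intro x hx hx'
    obtain ⟨r, hr⟩ := hbs x (fun r => ⟨(hYsub (hx r).1).1, (hx r).2⟩) hx'
    exact hr (hRK2 N (Ω \ S) h (x r) (hx r).1)
  obtain ⟨Yi, hYiY, hYi2, hYis, hYiloc⟩ := hYIN Ω S Y n s hΩ.op hΩ.bdd hSc hSΩ hn hs0
    (fun x hx => by linarith [hd x (mem_insert_of_mem p hx)]) hYsub hYcl hconf
  have hpYi : p ∈ Yi := hYi2 p hpY (by linarith [hd p (mem_insert p S)])
  have hout : ∀ q ∉ Ω, Yi ∩ ball q s = ∅ := by
    intro q hq
    rw [eq_empty_iff_forall_notMem]
    rintro x ⟨hx, hxq⟩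
    have h1 := hYis x hx
    have h2 := ngp_infDist_le hΩ (hYsub (hYiY hx)).1 hq
    rw [mem_ball] at hxq
    linarith
  -- Yi is analytic off S
  have hANi : ∀ q ∉ S, AN Yi q := by
    intro q hq
    by_cases hqΩ : q ∈ Ω
    · obtain ⟨U, hU, hU'⟩ := hYiloc q hq
      rcases hU' with hU' | hU'
      · exact (hANL Y Yi U q hU).1 hU' (hAN q ⟨hqΩ, hq⟩)
      · exact (hANL Y Yi U q hU).2.1 hU'
    · exact (hANL Y Yi (ball q s) q (ball_mem_nhds q hs0)).2.1 (hout q hqΩ)
  -- Yi is closed off S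
  have hYic : ∀ q ∉ S, q ∉ Yi → ∀ᶠ y in 𝓝 q, y ∉ Yi := by
    intro q hq hqY
    by_cases hqΩ : q ∈ Ω
    · obtain ⟨U, hU, hU'⟩ := hYiloc q hq
      rcases hU' with hU' | hU'
      · have hqY' : q ∉ Y := by
          intro h1
          have : q ∈ Y ∩ U := ⟨h1, mem_of_mem_nhds hU⟩
          rw [← hU'] at this
          exact hqY this.1
        filter_upwards [hYcl q ⟨hqΩ, hq⟩ hqY'] with y hy hy' using hy (hYiY hy')
      · filter_upwards [hU] with y hy hy'
        have : y ∈ Yi ∩ U := ⟨hy', hy⟩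
        rw [hU'] at this
        exact this
    · filter_upwards [ball_mem_nhds q hs0] with y hy hy'
      have : y ∈ Yi ∩ ball q s := ⟨hy', hy⟩
      rw [hout q hqΩ] at this
      exact this
  -- the graph point
  have hpG : GrPt Yi p := by
    obtain ⟨U, hU, hU'⟩ := hYiloc p hpS
    rcases hU' with hU' | hU'
    · exact (hANL Y Yi U p hU).2.2 hU' hp
    · have : p ∈ Yi ∩ U := ⟨hpYi, mem_of_mem_nhds hU⟩
      rw [hU'] at this
      exact this.elim
  -- the sign function
  obtain ⟨sg, hsg⟩ := hSIG Φ δ Yi hT.pos hT.src (by rw [hT.img]; exact hANi)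
  rw [hT.img] at hsg
  -- the outer value
  obtain ⟨R, hR0, hR⟩ : ∃ R : ℝ, 0 ≤ R ∧ ∀ x ∈ Ω, ‖x‖ ≤ R := by
    obtain ⟨R, hR⟩ := hΩ.bdd.exists_norm_le
    exact ⟨max R 0, le_max_right _ _, fun x hx => (hR x hx).trans (le_max_left _ _)⟩
  obtain ⟨c0, hc0⟩ : ∃ c0 : ℤˣ, ∀ x : E, R < ‖x‖ → sg x = c0 := by
    have hcont : ContinuousOn sg {x : E | R < ‖x‖} := by
      intro x hx
      have hxΩ : x ∉ Ω := fun h1 => absurd (hR x h1) (not_le.mpr hx)
      have h1 := hsg.lc x ⟨fun h2 => hxΩ (hSΩ h2), fun h2 => hxΩ (hYsub (hYiY h2)).1⟩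
      refine ContinuousAt.continuousWithinAt ?_
      exact (continuousAt_const (y := sg x)).congr (h1.mono fun y hy => hy.symm)
    obtain ⟨x1, hx1⟩ : ∃ x1 : E, R < ‖x1‖ := by
      refine ⟨(R + 1) • ev 0, ?_⟩
      rw [norm_smul, EuclideanSpace.norm_single, Real.norm_eq_abs, abs_of_nonneg (by linarith)]
      simp
    exact ⟨sg x1, fun x hx => (ngp_preconn R hR0).constant hcont hx hx1⟩
  have hne : c0 ≠ -c0 := by
    intro h1
    rcases Int.units_eq_one_or c0 with h2 | h2 <;> rw [h2] at h1 <;> exact absurd h1 (by decide)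
  -- the flux free set
  set D : Set E := {x | x ∉ S ∧ x ∉ Yi ∧ sg x = -c0} with hDdef
  have hDopen : IsOpen D := by
    rw [isOpen_iff_mem_nhds]
    rintro x ⟨hxS, hxY, hxc⟩
    have h1 := hsg.lc x ⟨hxS, hxY⟩
    have h2 := hYic x hxS hxY
    have h3 : ∀ᶠ y in 𝓝 x, y ∉ S := hSc.isClosed.isOpen_compl.mem_nhds hxS
    filter_upwards [h1, h2, h3] with y h1 h2 h3
    exact ⟨h3, h2, h1.trans hxc⟩
  have hDbdd : Bornology.IsBounded D := by
    refine isBounded_iff_forall_norm_le.mpr ⟨R, fun x hx => ?_⟩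
    by_contra h1
    rw [not_le] at h1
    exact hne ((hc0 x h1).symm.trans hx.2.2)
  -- the compact set
  set K : Set E := closure Ω ∩ {x | min s d ≤ infDist x (frontier Ω)} with hKdef
  have hKc : IsCompact K := by
    refine (hΩ.bdd.isCompact_closure).inter_right ?_
    exact isClosed_le continuous_const (continuous_infDist_pt _)
  have hKΩ : K ⊆ Ω := by
    rintro x ⟨hx, hx'⟩
    by_contra hxΩ
    have h1 : x ∈ frontier Ω := by
      rw [hΩ.op.frontier_eq]
      exact ⟨hx, hxΩ⟩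
    have h2 := infDist_zero_of_mem h1
    simp only [mem_setOf_eq, h2] at hx'
    exact absurd hx' (not_le.mpr (lt_min hs0 hd0))
  have hSK : S ⊆ K := fun x hx => ⟨subset_closure (hSΩ hx),
    (min_le_right _ _).trans (hd x (mem_insert_of_mem p hx))⟩
  have hYK : Yi ⊆ K := fun x hx => ⟨subset_closure (hYsub (hYiY hx)).1,
    (min_le_left _ _).trans (hYis x hx)⟩
  have hDcl : ∀ x ∈ closure D, x ∉ K → x ∈ D := by
    intro x hx hxK
    have hxS : x ∉ S := fun h1 => hxK (hSK h1)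
    have hxY : x ∉ Yi := fun h1 => hxK (hYK h1)
    refine ⟨hxS, hxY, ?_⟩
    have h1 := hsg.lc x ⟨hxS, hxY⟩
    rw [mem_closure_iff_frequently] at hx
    obtain ⟨y, hy, hy'⟩ := (hx.and_eventually h1).exists
    rw [← hy', hy.2.2]
  -- no flux
  have hFF : ∀ i, FF D (gr (h i)) (Ω \ S) := by
    intro i
    refine hFLX N (Ω \ S) h i D hopen hconn.isPreconnected hH hNT hDopen ?_
    intro x hx hxI hxD
    have hxY : x ∉ Yi := fun h1 => hxI (hYiY h1)
    have h1 := hsg.lc x ⟨hx.2, hxY⟩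
    have h2 : sg x ≠ -c0 := fun h2 => hxD ⟨hx.2, hxY, h2⟩
    filter_upwards [h1] with y hy hyD
    exact h2 (hy ▸ hyD.2.2)
  -- the closure of D is inside
  have hDΩ : closure D ⊆ Ω := by
    obtain ⟨i0, hi0⟩ := hF.special
    have h1 := hFM1 Ω S Φ δ σ ν (ψ i0) (h i0) (τ i0) D K hΩ.op hΩ.bdd hσ hT (hF.prof i0).l2 (hH i0)
      (hSol i0) hDopen hDbdd hKc hKΩ hSK hDcl (hFF i0)
    rw [hi0] at h1
    exact hFM3 Ω σ ν (3 * (volume Ω).toReal / (σ univ).toReal) D K hΩ hσ (by positivity) hDopen hDbdd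
      hKc hKΩ hDcl h1
  -- D is not empty
  have hDne : D.Nonempty := by
    obtain ⟨T, r, hh, g, hG, c, hc⟩ := hsg.flip p hpS hpG
    have key : ∀ t : ℝ, T (p + T.symm (EuclideanSpace.single 2 t) - p) = EuclideanSpace.single 2 t := by
      intro t
      rw [add_sub_cancel_left, LinearIsometryEquiv.apply_symm_apply]
    have hmem : ∀ t : ℝ, |t| < hh → p + T.symm (EuclideanSpace.single 2 t) ∈ Bx T p r hh := by
      intro t ht
      simp only [Bx, mem_setOf_eq, key]
      simpa using ⟨hG.rpos, ht⟩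
    have hab : ∀ t : ℝ, 0 < t → t < hh → sg (p + T.symm (EuclideanSpace.single 2 t)) = c := by
      intro t ht ht'
      refine (hc _ (hmem t (by rw [abs_of_pos ht]; exact ht'))).1 ?_
      rw [key]
      have : g ((EuclideanSpace.single 2 t : E) 0, (EuclideanSpace.single 2 t : E) 1) = 0 := by
        rw [← hG.zero]
        simp
      rw [this]
      simpa using ht
    have hbe : ∀ t : ℝ, t < 0 → -hh < t → sg (p + T.symm (EuclideanSpace.single 2 t)) = -c := by
      intro t ht ht'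
      refine (hc _ (hmem t (by rw [abs_of_neg ht]; linarith))).2 ?_
      rw [key]
      have : g ((EuclideanSpace.single 2 t : E) 0, (EuclideanSpace.single 2 t : E) 1) = 0 := by
        rw [← hG.zero]
        simp
      rw [this]
      simpa using ht
    have hoffY : ∀ t : ℝ, t ≠ 0 → |t| < hh → p + T.symm (EuclideanSpace.single 2 t) ∉ Yi := by
      intro t ht ht' hY
      rw [hG.eq _ (hmem t ht'), key] at hY
      have : g ((EuclideanSpace.single 2 t : E) 0, (EuclideanSpace.single 2 t : E) 1) = 0 := by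
        rw [← hG.zero]
        simp
      rw [this] at hY
      exact ht (by simpa using hY)
    have hcts : Continuous fun t : ℝ => p + T.symm (EuclideanSpace.single 2 t) := by
      refine continuous_const.add (T.symm.continuous.comp ?_)
      have : (fun t : ℝ => (EuclideanSpace.single 2 t : E)) = fun t : ℝ => t • (EuclideanSpace.single 2 (1 : ℝ) : E) := by
        funext t
        ext k
        simp
      change Continuous (fun t : ℝ => (EuclideanSpace.single 2 t : E))
      rw [this]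
      exact continuous_id.smul continuous_const
    have hS' : ∀ᶠ t in 𝓝 (0 : ℝ), p + T.symm (EuclideanSpace.single 2 t) ∉ S := by
      have h1 : Tendsto (fun t : ℝ => p + T.symm (EuclideanSpace.single 2 t)) (𝓝 0) (𝓝 p) := by
        have h2 := hcts.tendsto 0
        have h3 : (EuclideanSpace.single 2 (0 : ℝ) : E) = 0 := by
          ext k
          simp
        rw [h3, map_zero, add_zero] at h2
        exact h2
      exact h1 (hSc.isClosed.isOpen_compl.mem_nhds hpS)
    obtain ⟨ε, hε, hεS⟩ := Metric.eventually_nhds_iff.mp hS'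
    have hm : 0 < min ε hh / 2 := by
      have := lt_min hε hG.hpos
      linarith
    have hm1 : min ε hh / 2 < ε := by
      have := min_le_left ε hh
      linarith
    have hm2 : min ε hh / 2 < hh := by
      have := min_le_right ε hh
      linarith
    have hcc : c = -c0 ∨ -c = -c0 := by
      rcases Int.units_eq_one_or c with h2 | h2 <;> rcases Int.units_eq_one_or c0 with h3 | h3 <;>
        simp [h2, h3]
    rcases hcc with hcc | hcc
    · refine ⟨p + T.symm (EuclideanSpace.single 2 (min ε hh / 2)), hεS ?_, hoffY _ hm.ne' ?_, ?_⟩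
      · rw [dist_zero_right, Real.norm_eq_abs, abs_of_pos hm]
        exact hm1
      · rw [abs_of_pos hm]
        exact hm2
      · rw [hab _ hm hm2, hcc]
    · refine ⟨p + T.symm (EuclideanSpace.single 2 (-(min ε hh / 2))), hεS ?_, hoffY _ (by linarith) ?_, ?_⟩
      · rw [dist_zero_right, Real.norm_eq_abs, abs_neg, abs_of_pos hm]
        exact hm1
      · rw [abs_neg, abs_of_pos hm]
        exact hm2
      · rw [hbe _ (by linarith) (by linarith), hcc]
  -- the contradiction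
  choose ik hik using hF.nor
  refine hNVC Ω S σ ν (fun k => h (ik k)) (fun k => τ (ik k)) hΩ hσ hSc hSΩ hS0 hconn.isPreconnected
    (fun k => hH (ik k)) (fun k => ?_) D hDopen hDne (fun x hx => ⟨hDΩ (subset_closure hx), hx.1⟩) ?_
  · have := hSol (ik k)
    rw [hik k] at this
    exact this
  · intro k x hx
    exact hFM2 Ω S Φ δ (h (ik k)) D hΩ.op hΩ.bdd hT
      (hWNS Ω S σ ν (ψ (ik k)) (h (ik k)) (τ (ik k)) hΩ.op hΩ.bdd hσ hSc hSΩ (hH _) (hSol _))
      hDopen hDΩ (hFF _) x hx hx.1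

end Pool.Agent.H94.IC
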