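import Mathlib
import Pool.Agent.H11.IC.DIS
import Pool.Agent.H11.IC.PRS
import Pool.Agent.H11.IC.PSM
import Pool.Agent.H14.IC.CEL
import Pool.Agent.H14.IC.INC
import Pool.Agent.H14.IC.TOP
import Pool.Agent.H18.IC.ANL
import Pool.Agent.H18.IC.CNO
import Pool.Agent.H18.IC.COO
import Pool.Agent.H18.IC.CSC
import Pool.Agent.H18.IC.ENC
import Pool.Agent.H18.IC.SUB
import Pool.Agent.H19.IC.CUB
import Pool.Agent.H19.IC.GRM
import Pool.Agent.H19.IC.LAT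
import Pool.Agent.H19.IC.RK2
import Pool.Agent.H2.IC.FAM
import Pool.Agent.H2.IC.NVC
import Pool.Agent.H27.IC.GHC
import Pool.Agent.H27.IC.HNK
import Pool.Agent.H27.IC.INV
import Pool.Agent.H27.IC.PSA
import Pool.Agent.H27.IC.SIG
import Pool.Agent.H27.IC.SIY
import Pool.Agent.H29.IC.CAC
import Pool.Agent.H29.IC.HRP
import Pool.Agent.H29.IC.HRX
import Pool.Agent.H29.IC.HSM
import Pool.Agent.H29.IC.MVG
import Pool.Agent.H29.IC.UCX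
import Pool.Agent.H29.IC.WYL
import Pool.Agent.H30.IC.FM2
import Pool.Agent.H30.IC.RG1
import Pool.Agent.H30.IC.RG2
import Pool.Agent.H32.IC.CTR
import Pool.Agent.H32.IC.FCE
import Pool.Agent.H32.IC.NSR
import Pool.Agent.H39.IC.BAR
import Pool.Agent.H39.IC.DIP
import Pool.Agent.H39.IC.REL
import Pool.Agent.H39.IC.YIN
import Pool.Agent.H4.IC.RLZ
import Pool.Agent.H4.IC.RMV
import Pool.Agent.H41.IC.GDC
import Pool.Agent.H41.IC.POL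
import Pool.Agent.H41.IC.UNI
import Pool.Agent.H41.IC.ZNull
import Pool.Agent.H58.IC.MUL
import Pool.Agent.H58.IC.NWT
import Pool.Agent.H58.IC.TBV
import Pool.Agent.H58.IC.XCK
import Pool.Agent.H62.IC.CSA
import Pool.Agent.H62.IC.CSB
import Pool.Agent.H62.IC.FM1
import Pool.Agent.H65.IC.NJB
import Pool.Agent.H73.IC.DCH
import Pool.Agent.H73.IC.DET
import Pool.Agent.H73.IC.FM3
import Pool.Agent.H73.IC.HX
import Pool.Agent.H73.IC.IND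
import Pool.Agent.H73.IC.PLS
import Pool.Agent.H73.IC.PRO
import Pool.Agent.H86.IC.EDG
import Pool.Agent.H86.IC.EQL
import Pool.Agent.H86.IC.FCH
import Pool.Agent.H86.IC.FFE
import Pool.Agent.H86.IC.MAIN
import Pool.Agent.H86.IC.NLS
import Pool.Agent.H86.IC.NTV
import Pool.Agent.H86.IC.TAN
import Pool.Agent.H89.IC.FLX
import Pool.Agent.H89.IC.FM0
import Pool.Agent.H90.IC.ANW
import Pool.Agent.H90.IC.CIR
import Pool.Agent.H90.IC.NAG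
import Pool.Agent.H90.IC.SQI
import Pool.Agent.H92.IC.NSE
import Pool.Agent.H92.IC.TUB
import Pool.Agent.H94.IC.NGP
import Pool.Agent.H97.IC.DST
import Pool.Agent.H97.IC.GPE
import Pool.Agent.H97.IC.SGN

/-!
# Insulating cracks: assembly of the modules
-/

namespace Pool.Agent.H94.IC

theorem p_ANL : T_ANL :=
  Pool.Agent.H18.IC.anl

theorem p_GHC : T_GHC :=
  Pool.Agent.H27.IC.ghc

theorem p_ANW : T_ANW :=
  Pool.Agent.H90.IC.anw p_GHC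

theorem p_HSM : T_HSM :=
  Pool.Agent.H29.IC.hsm

theorem p_CUB : T_CUB :=
  Pool.Agent.H19.IC.CUB_proof

theorem p_TOP : T_TOP :=
  Pool.Agent.H14.IC.top p_CUB

theorem p_CEL : T_CEL :=
  Pool.Agent.H14.IC.cell p_CUB p_TOP

theorem p_CTR : T_CTR :=
  Pool.Agent.H32.IC.ctr p_CEL

theorem p_DET : T_DET :=
  Pool.Agent.H73.IC.det

theorem p_GRM : T_GRM :=
  Pool.Agent.H19.IC.grm p_DET

theorem p_CAC : T_CAC :=
  Pool.Agent.H29.IC.cac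

theorem p_MVG : T_MVG :=
  Pool.Agent.H29.IC.mvg

theorem p_REL : T_REL :=
  Pool.Agent.H39.IC.REL.rel p_HSM p_CTR p_GRM p_CAC p_MVG

theorem p_DIP : T_DIP :=
  Pool.Agent.H39.IC.DIP.dip

theorem p_MUL : T_MUL :=
  Pool.Agent.H58.IC.mul

theorem p_IND : T_IND :=
  Pool.Agent.H73.IC.ind p_DIP p_MUL

theorem p_XCK : T_XCK :=
  Pool.Agent.H58.IC.xck

theorem p_PLS : T_PLS :=
  Pool.Agent.H73.IC.pls p_XCK

theorem p_LAT : T_LAT :=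
  Pool.Agent.H19.IC.lat

theorem p_NJB : T_NJB :=
  Pool.Agent.H65.IC.njb p_MUL p_LAT

theorem p_WYL : T_WYL :=
  Pool.Agent.H29.IC.wyl

theorem p_NSR : T_NSR :=
  Pool.Agent.H32.IC.nsr p_WYL

theorem p_NSE : T_NSE :=
  Pool.Agent.H92.IC.nse p_PLS p_NJB p_NSR

theorem p_BAR : T_BAR :=
  Pool.Agent.H39.IC.bar p_HSM p_REL p_IND p_NSE

theorem p_CIR : T_CIR :=
  Pool.Agent.H90.IC.cir

theorem p_CNO : T_CNO :=
  Pool.Agent.H18.IC.cno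

theorem p_COO : T_COO :=
  Pool.Agent.H18.IC.coo

theorem p_SQI : T_SQI :=
  Pool.Agent.H90.IC.sqi

theorem p_TAN : T_TAN :=
  Pool.Agent.H86.IC.tan

theorem p_HXA : T_HXA :=
  Pool.Agent.H73.IC.hxa p_GHC

theorem p_HXP : T_HXP :=
  Pool.Agent.H73.IC.hxp p_GHC

theorem p_NWT : T_NWT :=
  Pool.Agent.H58.IC.nwt

theorem p_HRX : T_HRX :=
  Pool.Agent.H29.IC.hrx p_NWT

theorem p_IDT : T_IDT :=
  Pool.Agent.H73.IC.idt

theorem p_NUL : T_NUL :=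
  Pool.Agent.H41.IC.nul p_IDT

theorem p_INC : T_INC :=
  Pool.Agent.H14.IC.inc p_HXA p_HXP p_HRX p_IDT p_NUL p_ANW

theorem p_SIY : T_SIY :=
  Pool.Agent.H27.IC.siy p_INC

theorem p_PSM : T_PSM :=
  Pool.Agent.H11.IC.psm

theorem p_HNK : T_HNK :=
  Pool.Agent.H27.IC.hnk

theorem p_PSA : T_PSA :=
  Pool.Agent.H27.IC.psa

theorem p_DIS : T_DIS :=
  Pool.Agent.H11.IC.dis p_PSM p_HNK p_PSA

theorem p_PRS : T_PRS :=
  Pool.Agent.H11.IC.prs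

theorem p_PBX : T_PBX :=
  Pool.Agent.H4.IC.pbx p_COO p_DIS p_PRS

theorem p_DCH : T_DCH :=
  Pool.Agent.H73.IC.dch

theorem p_SGN : T_SGN :=
  Pool.Agent.H97.IC.sgn p_DCH

theorem p_RMV : T_RMV :=
  Pool.Agent.H4.IC.rmv p_DCH

theorem p_RMG : T_RMG :=
  Pool.Agent.H4.IC.rmg p_PBX p_SGN p_RMV

theorem p_GPE : T_GPE :=
  Pool.Agent.H97.IC.gpe p_RMG

theorem p_RK2 : T_RK2 :=
  Pool.Agent.H19.IC.rk2

theorem p_NTV : T_NTV :=
  Pool.Agent.H86.IC.ntv p_RK2 p_XCK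

theorem p_YIN : T_YIN :=
  Pool.Agent.H39.IC.yin

theorem p_GDC : T_GDC :=
  Pool.Agent.H41.IC.gdc

theorem p_SIG : T_SIG :=
  Pool.Agent.H27.IC.sig p_GDC p_RMG p_DCH

theorem p_NAG : T_NAG :=
  Pool.Agent.H90.IC.nag p_GHC p_HXP

theorem p_INV : T_INV :=
  Pool.Agent.H27.IC.inv p_NAG p_HXA p_HXP p_HRX p_INC

theorem p_LOC : T_LOC :=
  Pool.Agent.H19.IC.loc

theorem p_DST : T_DST :=
  Pool.Agent.H97.IC.dst p_INV p_INC p_LOC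

theorem p_FLX : T_FLX :=
  Pool.Agent.H89.IC.flx p_DST p_INC

theorem p_RG1 : T_RG1 :=
  Pool.Agent.H30.IC.rg1

theorem p_RG2 : T_RG2 :=
  Pool.Agent.H30.IC.rg2 p_RG1

theorem p_FCE : T_FCE :=
  Pool.Agent.H32.IC.fce p_RG2

theorem p_EDG : T_EDG :=
  Pool.Agent.H86.IC.edg

theorem p_TBV : T_TBV :=
  Pool.Agent.H58.IC.tbv

theorem p_NLS : T_NLS :=
  Pool.Agent.H86.IC.nls

theorem p_FM0 : T_FM0 :=
  Pool.Agent.H89.IC.fm0 p_FCE p_EDG p_TBV p_NLS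

theorem p_WNS : T_WNS :=
  Pool.Agent.H29.IC.wns

theorem p_FM1 : T_FM1 :=
  Pool.Agent.H62.IC.fm1 p_FM0 p_HSM p_WNS p_NLS

theorem p_FM3 : T_FM3 :=
  Pool.Agent.H73.IC.fm3

theorem p_FM2 : T_FM2 :=
  Pool.Agent.H30.IC.fm2 p_NLS p_FM0

theorem p_PRO : T_PRO :=
  Pool.Agent.H73.IC.pro

theorem p_NVC : T_NVC :=
  Pool.Agent.H2.IC.nvc_proof p_HSM p_IDT p_HRX p_PRO

theorem p_NGP : T_NGP :=
  Pool.Agent.H94.IC.ngp p_NTV p_CNO p_INC p_RK2 p_YIN p_ANL p_SIG p_FLX p_FM1 p_FM3 p_FM2 p_NVC p_NLS p_WNS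

theorem p_CSA : T_CSA :=
  Pool.Agent.H62.IC.csa p_SQI p_TAN p_SIY p_GPE p_INC p_NTV p_CNO p_NGP p_WNS p_NLS

theorem p_FCH : T_FCH :=
  Pool.Agent.H86.IC.fch

theorem p_CSB : T_CSB :=
  Pool.Agent.H62.IC.csb p_CNO p_FCH p_TAN p_SIY p_GPE p_RMG p_INC p_LOC p_NTV p_NGP p_WNS p_ANL p_NLS

theorem p_SUB : T_SUB :=
  Pool.Agent.H18.IC.sub

theorem p_CSC : T_CSC :=
  Pool.Agent.H18.IC.csc p_SUB p_SQI p_CIR

theorem p_ENC : T_ENC :=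
  Pool.Agent.H18.IC.enc

theorem p_UCX : T_UCX :=
  Pool.Agent.H29.IC.ucx p_WYL p_IDT p_HRX

theorem p_FFE : T_FFE :=
  Pool.Agent.H86.IC.ffe p_ENC

theorem p_EQL : T_EQL :=
  Pool.Agent.H86.IC.eql p_UCX p_ENC p_FFE p_FM2 p_NVC p_WNS p_NLS p_CNO

theorem p_FAM : T_FAM :=
  Pool.Agent.H2.IC.fam_proof p_BAR p_PRO

theorem p_GLS : T_GLS :=
  Pool.Agent.H41.IC.gls

theorem p_HRP : T_HRP :=
  Pool.Agent.H29.IC.hrp p_WYL

theorem p_TUB : T_TUB :=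
  Pool.Agent.H92.IC.tub

theorem p_MAIN : T_MAIN :=
  Pool.Agent.H86.IC.main p_FAM p_TUB p_NLS p_HRP p_EQL p_CSA p_CSB p_CSC

theorem p_MTY : T_MTY :=
  Pool.Agent.H19.IC.mty

theorem p_POL : T_POL :=
  Pool.Agent.H41.IC.pol

theorem p_RLZ : T_RLZ :=
  Pool.Agent.H4.IC.rlz p_PRS

theorem p_UNI : T_UNI :=
  Pool.Agent.H41.IC.uni

end Pool.Agent.H94.IC
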